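import Pool.Agent.V7H85.QS.Pencil

/-!
# Pairs of quadratic equations: degenerate cases
-/

set_option autoImplicit false
set_option linter.unusedSectionVars false

namespace Pool.Agent.V7H85.QS

open Module LinearMap Pool.Agent.TH783.CE

variable {K : Type} [Field K] [CharZero K]
variable {V E : Type} [AddCommGroup V] [Module K V] [AddCommGroup E] [Module K E]

/-- the values at the zeros -/
def DB (B : V →ₗ[K] V →ₗ[K] E) (x₀ x₁ : V →ₗ[K] K) : Set K :=
  {t | ∃ P, B P P = 0 ∧ x₀ P ≠ 0 ∧ x₁ P = t * x₀ P}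

/-- the values at the zeros in a subspace -/
def DW (B : V →ₗ[K] V →ₗ[K] E) (x₀ x₁ : V →ₗ[K] K) (W : Submodule K V) : Set K :=
  {t | ∃ P ∈ W, B P P = 0 ∧ x₀ P ≠ 0 ∧ x₁ P = t * x₀ P}

variable {O : Set K} {B : V →ₗ[K] V →ₗ[K] E} {x₀ x₁ : V →ₗ[K] K}

/-- dependent functionals -/
lemma case_dep (h : ¬ Ind x₀ x₁) : Thin (DB B x₀ x₁) := by
  unfold Ind at h
  push Not at h
  obtain ⟨a, b, h1, h2⟩ := h
  refine Thin.of_finite ((Set.finite_singleton (-a / b)).subset ?_)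
  rintro t ⟨P, -, h3, h4⟩
  refine val_of ?_ h3 h4 (h1 P)
  by_cases ha : a = 0
  · exact Or.inr (h2 ha)
  · exact Or.inl ha

/-- one of the forms vanishes -/
lemma case_zero [FiniteDimensional K E] (hE : finrank K E = 2) (hB : ∀ u v, B u v = B v u)
    (hO : Flat O) (h : ∀ P, B P P = 0 → x₀ P ≠ 0 → x₁ P / x₀ P ∈ O) {l : E →ₗ[K] K} (hl : l ≠ 0)
    (hl0 : ∀ u v, l (B u v) = 0) : Thin (DB B x₀ x₁) := by
  obtain ⟨l', e, e', a1, a2, a3, a4, a5⟩ := dual_pair hE hl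
  have hz : ∀ P, l' (B P P) = 0 → B P P = 0 := fun P hP => by
    rw [a5 (B P P), hl0, hP, zero_smul, zero_smul, add_zero]
  refine Thin.of_finite ((quad_case (x₀ := x₀) (x₁ := x₁) hO (B.compr₂ l') (fun u v => ?_)
    fun P hP => h P (hz P hP)).subset ?_)
  · show l' (B u v) = l' (B v u)
    rw [hB]
  · rintro t ⟨P, hP, h1, h2⟩
    refine ⟨P, ?_, h1, h2⟩
    show l' (B P P) = 0
    rw [hP, map_zero]

lemma ker_ne_top {l : V →ₗ[K] K} (hl : l ≠ 0) : ker l ≠ ⊤ := fun h =>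
  hl (LinearMap.ker_eq_top.1 h)

/-- a nonzero vector in the radical -/
lemma case_rad (hB : ∀ u v, B u v = B v u) (hO : Flat O)
    (h : ∀ P, B P P = 0 → x₀ P ≠ 0 → x₁ P / x₀ P ∈ O)
    (ih : ∀ W : Submodule K V, W ≠ ⊤ → Thin (DW B x₀ x₁ W)) {n : V} (hn : n ≠ 0)
    (hn0 : ∀ v, B n v = 0) : Thin (DB B x₀ x₁) := by
  by_cases hx : x₀ n = 0 ∧ x₁ n = 0
  · obtain ⟨η, hη⟩ := exists_dual (K := K) hn
    refine (ih (ker η) (ker_ne_top (by rintro rfl; simp at hη))).mono ?_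
    rintro t ⟨P, hP, h1, h2⟩
    refine ⟨P - η P • n, ?_, ?_, ?_, ?_⟩
    · rw [LinearMap.mem_ker, map_sub, map_smul, hη, smul_eq_mul, mul_one, sub_self]
    · simp only [map_sub, map_smul, LinearMap.sub_apply, LinearMap.smul_apply, hP, hn0, hB P n,
        smul_zero, sub_zero]
    · rw [map_sub, map_smul, hx.1, smul_zero, sub_zero]
      exact h1
    · rw [map_sub, map_smul, hx.2, map_sub, map_smul, hx.1, smul_zero, sub_zero, sub_zero]
      exact h2
  · refine Thin.of_finite ((Set.finite_singleton (x₁ n / x₀ n)).subset ?_)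
    rintro t ⟨P, hP, h1, h2⟩
    obtain ⟨c, hc, hc'⟩ := line_case hO (x₀ := x₀) (x₁ := x₁) (u := P) (v := n) (by
      intro s hs
      refine h _ ?_ hs
      simp only [map_add, map_smul, LinearMap.add_apply, LinearMap.smul_apply, hP, hn0, hB P n,
        smul_zero, add_zero]) h1
    have h3 : x₀ n ≠ 0 := by
      intro h0
      rw [h0, mul_zero] at hc'
      exact hx ⟨h0, hc'⟩
    have h4 : t = c := mul_right_cancel₀ h1 (h2.symm.trans hc)
    rw [Set.mem_singleton_iff, h4, hc', mul_div_cancel_right₀ _ h3]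

/-- a totally isotropic hyperplane of one of the forms -/
lemma case_iso (hB : ∀ u v, B u v = B v u)
    (ih : ∀ W : Submodule K V, W ≠ ⊤ → Thin (DW B x₀ x₁ W)) {l : E →ₗ[K] K}
    (hl : ∃ u v, l (B u v) ≠ 0) {η : V →ₗ[K] K} (hη : η ≠ 0)
    (hη0 : ∀ u v, η u = 0 → η v = 0 → l (B u v) = 0) : Thin (DB B x₀ x₁) := by
  obtain ⟨v₀, hv₀⟩ : ∃ v, η v = 1 := by
    obtain ⟨v, hv⟩ : ∃ v, η v ≠ 0 := by
      by_contra hcon
      push Not at hcon
      exact hη (LinearMap.ext hcon)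
    exact ⟨(η v)⁻¹ • v, by rw [map_smul, smul_eq_mul, inv_mul_cancel₀ hv]⟩
  obtain ⟨ζ, hζ⟩ : ∃ ζ : V →ₗ[K] K, ∀ x, ζ x = 2 * l (B v₀ x) - l (B v₀ v₀) * η x :=
    ⟨(2 : K) • (l ∘ₗ B v₀) - l (B v₀ v₀) • η, fun x => by
      simp only [LinearMap.sub_apply, LinearMap.smul_apply, LinearMap.comp_apply, smul_eq_mul]⟩
  have hfac : ∀ x, l (B x x) = η x * ζ x := by
    intro x
    have h1 := hη0 (x - η x • v₀) (x - η x • v₀)
      (by rw [map_sub, map_smul, hv₀, smul_eq_mul, mul_one, sub_self])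
      (by rw [map_sub, map_smul, hv₀, smul_eq_mul, mul_one, sub_self])
    simp only [map_sub, map_smul, LinearMap.sub_apply, LinearMap.smul_apply, smul_eq_mul,
      hB x v₀] at h1
    rw [hζ]
    linear_combination h1
  have hζ0 : ζ ≠ 0 := by
    rintro rfl
    obtain ⟨u, v, huv⟩ := hl
    have h1 : B.compr₂ l ≠ 0 := fun h0 => huv (LinearMap.congr_fun (LinearMap.congr_fun h0 u) v)
    obtain ⟨y, hy⟩ := exists_diag (B.compr₂ l) (fun u v => by
      show l (B u v) = l (B v u)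
      rw [hB]) h1
    apply hy
    show l (B y y) = 0
    rw [hfac, LinearMap.zero_apply, mul_zero]
  refine ((ih (ker η) (ker_ne_top hη)).union (ih (ker ζ) (ker_ne_top hζ0))).mono ?_
  rintro t ⟨P, hP, h1, h2⟩
  have h3 := hfac P
  rw [hP, map_zero] at h3
  rcases mul_eq_zero.1 h3.symm with h4 | h4
  · exact Or.inl ⟨P, h4, hP, h1, h2⟩
  · exact Or.inr ⟨P, h4, hP, h1, h2⟩

end Pool.Agent.V7H85.QS
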