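import Pool.Agent.V7H85.QS.Rank

/-!
# Rational curves on systems of quadratic equations
-/

set_option autoImplicit false
set_option linter.unusedSectionVars false

namespace Pool.Agent.V7H85.QS

open Module LinearMap

variable {K : Type} [Field K] [CharZero K]

section

variable {V W E X Y : Type} [AddCommGroup V] [Module K V] [AddCommGroup W] [Module K W]
  [AddCommGroup E] [Module K E]

lemma exists_diag (B : W →ₗ[K] W →ₗ[K] E) (hB : ∀ u v, B u v = B v u)
    (hne : B ≠ 0) : ∃ y, B y y ≠ 0 := by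
  by_contra hcon
  push Not at hcon
  apply hne
  ext u v
  have h1 := hcon (u + v)
  simp only [map_add, LinearMap.add_apply, hcon, zero_add, add_zero] at h1
  rw [hB v u] at h1
  have h2 : (2 : K) • B u v = 0 := by rw [two_smul]; exact h1
  simpa using (smul_eq_zero.1 h2).resolve_left two_ne_zero

lemma form_ne {b : W →ₗ[K] W →ₗ[K] K} (h : 1 ≤ finrank K (range b)) : b ≠ 0 := by
  rintro rfl
  rw [LinearMap.range_zero, finrank_bot] at h
  omega

end

/-- **Rational curves.** Let `B` be a symmetric bilinear map of `V` into a space of dimension `m` such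
that all nonzero forms `l ∘ B` have rank at least `m (m - 1) + 3`.  Then through every zero `P` of
`B (x, x)` for which `B (P, ·)` is surjective there is a polynomial curve of zeros which is not
contained in a given hyperplane. -/
theorem curve (m : ℕ) : ∀ (V E : Type) [AddCommGroup V] [Module K V] [FiniteDimensional K V]
    [AddCommGroup E] [Module K E] [FiniteDimensional K E] (B : V →ₗ[K] V →ₗ[K] E),
    (∀ u v, B u v = B v u) → finrank K E = m →
    (∀ l : E →ₗ[K] K, l ≠ 0 → m * (m - 1) + 3 ≤ finrank K (range (B.compr₂ l))) →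
    ∀ P : V, B P P = 0 → Function.Surjective (B P) → ∀ α : V →ₗ[K] K, α ≠ 0 →
    ∃ φ : K → V, PV φ ∧ (∀ t, B (φ t) (φ t) = 0) ∧ (∃ c : K, c ≠ 0 ∧ φ 0 = c • P) ∧
      ∃ t, α (φ t) ≠ 0 := by
  induction m with
  | zero =>
    intro V E _ _ _ _ _ _ B hB hE hr P hP hs α hα
    have hsub : Subsingleton E := Module.finrank_zero_iff.1 hE
    obtain ⟨v, hv⟩ : ∃ v, α v ≠ 0 := by
      by_contra hcon
      push Not at hcon
      exact hα (LinearMap.ext hcon)
    refine ⟨fun t => P + t • v, (PV.const P).add (PV.smul PF.id (PV.const v)),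
      fun t => Subsingleton.elim _ _, ⟨1, one_ne_zero, by simp⟩, ?_⟩
    by_cases h : α P = 0
    · refine ⟨1, ?_⟩
      simp only [one_smul, map_add, h, zero_add]
      exact hv
    · refine ⟨0, ?_⟩
      simp only [zero_smul, add_zero]
      exact h
  | succ m ih =>
    intro V E _ _ _ _ _ _ B hB hE hr P hP hs α hα
    simp only [Nat.add_sub_cancel] at hr
    -- the tangent space
    obtain ⟨T, hT⟩ : ∃ T : Submodule K V, T = ker (B P) := ⟨_, rfl⟩
    have hTd : finrank K V = finrank K T + (m + 1) := by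
      have h1 := rank_add_ker (B P)
      rw [LinearMap.range_eq_top.2 hs, finrank_top, hE, ← hT] at h1
      omega
    obtain ⟨BT, hBT⟩ : ∃ BT : T →ₗ[K] T →ₗ[K] E, BT = B.compl₁₂ T.subtype T.subtype := ⟨_, rfl⟩
    have hBTv : ∀ u v : T, BT u v = B u v := fun u v => by rw [hBT]; rfl
    have hBTs : ∀ u v, BT u v = BT v u := fun u v => by rw [hBTv, hBTv, hB]
    have hrT : ∀ l : E →ₗ[K] K, l ≠ 0 → m + 1 ≤ finrank K (range (BT.compr₂ l)) + 1 ∧
        1 ≤ finrank K (range (BT.compr₂ l)) := by
      intro l hl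
      have h1 := rank_restrict (B.compr₂ l) T (m + 1) hTd.le
      have h2 : (B.compr₂ l).compl₁₂ T.subtype T.subtype = BT.compr₂ l := by
        rw [hBT]
        rfl
      rw [h2] at h1
      have h3 := hr l hl
      have h4 : m ≤ m * m - m + 1 := by
        have : 2 * m ≤ m * m + 1 := by nlinarith [sq_nonneg ((m : ℤ) - 1), sq_nonneg (m - 1)]
        omega
      have h5 : (m + 1) * m = m * m + m := by ring
      rw [h5] at h3
      have h6 : m ≤ m * m := by nlinarith
      constructor <;> omega
    have hE0 : ∃ l : E →ₗ[K] K, l ≠ 0 := by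
      have : Nontrivial E := Module.nontrivial_of_finrank_pos (R := K) (by omega)
      obtain ⟨e, he⟩ := exists_ne (0 : E)
      obtain ⟨l, hl⟩ := exists_dual (K := K) he
      exact ⟨l, fun h => by rw [h] at hl; simp at hl⟩
    have hg1 : ∃ y : T, BT y y ≠ 0 := by
      obtain ⟨l, hl⟩ := hE0
      refine exists_diag BT hBTs ?_
      rintro h
      exact form_ne (hrT l hl).2 (by rw [h]; ext; simp)
    have hg3 : ∃ y : T, finrank K E ≤ finrank K (range (BT y)) :=
      exists_surj BT hBTs (fun l hl => by rw [hE]; exact (hrT l hl).1) hg1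
    -- the condition on the hyperplane
    obtain ⟨S, hS1, hS2, hS3⟩ : ∃ S : T → Prop, LO (K := K) S ∧ (∃ y, S y) ∧ ∀ y, S y →
        (α y ≠ 0 ∨ ∃ μ : E →ₗ[K] K, α = μ ∘ₗ B P ∧ μ (B y y) ≠ 0) := by
      by_cases h : ∀ y ∈ T, α y = 0
      · -- `α` is a combination of the equations of the tangent space
        obtain ⟨s, hs'⟩ := (B P).exists_rightInverse_of_surjective (LinearMap.range_eq_top.2 hs)
        have hμ : α = (α ∘ₗ s) ∘ₗ B P := by
          ext v
          have h1 : v - s (B P v) ∈ T := by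
            rw [hT, LinearMap.mem_ker, map_sub]
            have := LinearMap.congr_fun hs' (B P v)
            simp only [LinearMap.comp_apply, LinearMap.id_apply] at this
            rw [this, sub_self]
          have h2 := h _ h1
          rw [map_sub, sub_eq_zero] at h2
          exact h2
        have hμ0 : α ∘ₗ s ≠ 0 := by
          intro h0
          rw [h0, LinearMap.zero_comp] at hμ
          exact hα hμ
        refine ⟨fun y => (BT.compr₂ (α ∘ₗ s)) y y ≠ 0, LO.quad _,
          exists_diag _ (fun u v => ?_) (form_ne (hrT _ hμ0).2), fun y hy => Or.inr ⟨_, hμ, ?_⟩⟩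
        · show (α ∘ₗ s) (BT u v) = (α ∘ₗ s) (BT v u)
          rw [hBTs]
        · have h3 : (α ∘ₗ s) (BT y y) ≠ 0 := hy
          rwa [hBTv] at h3
      · push Not at h
        obtain ⟨y, hy, hy0⟩ := h
        exact ⟨fun y => (α ∘ₗ T.subtype) y ≠ 0, LO.lin _, ⟨⟨y, hy⟩, hy0⟩, fun y hy => Or.inl hy⟩
    obtain ⟨y, ⟨hy1, hy2⟩, hy3⟩ := LO.both ((LO.quadE BT).and hS1)
      (LO.rank BT (finrank K E)) (LO.both (LO.quadE BT) hS1 hg1 hS2) hg3
    have hTmem : ∀ x ∈ T, B P x = 0 := fun x hx => by
      rw [hT, LinearMap.mem_ker] at hx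
      exact hx
    have hPy : B P y = 0 := hTmem _ y.2
    -- the direction `β`
    obtain ⟨β, hβ⟩ : ∃ β : E, β = B y y := ⟨_, rfl⟩
    have hβ0 : β ≠ 0 := by
      rw [hβ, ← hBTv]
      exact hy1
    obtain ⟨l₀, hl₀⟩ := exists_dual (K := K) hβ0
    have hysurj : ∀ e : E, ∃ x ∈ T, B y x = e := by
      intro e
      have h1 : range (BT y) = ⊤ := Submodule.eq_top_of_finrank_eq
        (le_antisymm (Submodule.finrank_le _) hy3)
      obtain ⟨x, hx⟩ := LinearMap.range_eq_top.1 h1 e
      exact ⟨x, x.2, by rw [← hBTv]; exact hx⟩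
    -- the smaller system
    obtain ⟨N, hN⟩ : ∃ N : Submodule K E, N = Submodule.span K {β} := ⟨_, rfl⟩
    obtain ⟨V', hV'⟩ : ∃ V' : Submodule K V, V' = ker (N.mkQ ∘ₗ B P) := ⟨_, rfl⟩
    have hmemN : ∀ e : E, e ∈ N → e = l₀ e • β := by
      intro e he
      rw [hN, Submodule.mem_span_singleton] at he
      obtain ⟨c, rfl⟩ := he
      rw [map_smul, hl₀, smul_eq_mul, mul_one]
    have hmemV : ∀ x, x ∈ V' ↔ B P x ∈ N := by
      intro x
      rw [hV', LinearMap.mem_ker, LinearMap.comp_apply, Submodule.mkQ_apply,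
        Submodule.Quotient.mk_eq_zero]
    have hNd : finrank K (E ⧸ N) = m := by
      have h1 := Submodule.finrank_quotient_add_finrank N
      have h2 : finrank K N = 1 := by
        rw [hN]
        exact finrank_span_singleton hβ0
      omega
    have hV'd : finrank K V ≤ finrank K V' + m := by
      have h1 := rank_add_ker (N.mkQ ∘ₗ B P)
      have h2 : finrank K (range (N.mkQ ∘ₗ B P)) ≤ m := by
        rw [← hNd]
        exact Submodule.finrank_le _
      rw [← hV'] at h1
      omega
    obtain ⟨B', hB'⟩ : ∃ B' : V' →ₗ[K] V' →ₗ[K] (E ⧸ N),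
        B' = (B.compl₁₂ V'.subtype V'.subtype).compr₂ N.mkQ := ⟨_, rfl⟩
    have hB'v : ∀ u v : V', B' u v = N.mkQ (B u v) := fun u v => by rw [hB']; rfl
    have hyV : (y : V) ∈ V' := by
      rw [hmemV, hPy]
      exact N.zero_mem
    obtain ⟨r, hr'⟩ : ∃ r : V' →ₗ[K] K, r = l₀ ∘ₗ B P ∘ₗ V'.subtype := ⟨_, rfl⟩
    have hrv : ∀ x : V', B P x = r x • β := by
      intro x
      rw [hr']
      exact hmemN _ ((hmemV _).1 x.2)
    obtain ⟨ψ, hψ, hψ0, ⟨c, hc, hψc⟩, t₀, ht₀⟩ := ih V' (E ⧸ N) B'
      (fun u v => by rw [hB'v, hB'v, hB]) hNd (by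
        intro l hl
        have hl' : l ∘ₗ N.mkQ ≠ 0 := by
          intro h
          apply hl
          ext e
          exact LinearMap.congr_fun h e
        have h1 := rank_restrict (B.compr₂ (l ∘ₗ N.mkQ)) V' m hV'd
        have h2 : (B.compr₂ (l ∘ₗ N.mkQ)).compl₁₂ V'.subtype V'.subtype = B'.compr₂ l := by
          rw [hB']
          rfl
        rw [h2] at h1
        have h3 := hr _ hl'
        have h5 : (m + 1) * m = m * m + m := by ring
        rw [h5] at h3
        have h6 : m * (m - 1) + m = m * m := by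
          rcases m with _ | m
          · rfl
          · simp only [Nat.add_sub_cancel]
            ring
        omega) ⟨y, hyV⟩
      (by
        rw [hB'v, Submodule.mkQ_apply, Submodule.Quotient.mk_eq_zero, hN, ← hβ]
        exact Submodule.mem_span_singleton_self β)
      (by
        intro e'
        obtain ⟨e, rfl⟩ := N.mkQ_surjective e'
        obtain ⟨x, hx, hxe⟩ := hysurj e
        have hxV : x ∈ V' := by
          rw [hT, LinearMap.mem_ker] at hx
          rw [hmemV, hx]
          exact N.zero_mem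
        refine ⟨⟨x, hxV⟩, ?_⟩
        rw [hB'v]
        exact congrArg _ hxe)
      r (by
        intro h
        obtain ⟨x, hx⟩ := hs β
        have hxV : x ∈ V' := by
          rw [hmemV, hx, hN]
          exact Submodule.mem_span_singleton_self β
        have h1 := hrv ⟨x, hxV⟩
        rw [h, LinearMap.zero_apply, zero_smul] at h1
        have h2 : B P x = 0 := h1
        rw [hx] at h2
        exact hβ0 h2)
    -- the curve
    have hψN : ∀ t, B (ψ t) (ψ t) = l₀ (B (ψ t) (ψ t)) • β := by
      intro t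
      apply hmemN
      have h1 := hψ0 t
      rw [hB'v, Submodule.mkQ_apply, Submodule.Quotient.mk_eq_zero] at h1
      exact h1
    have hry : r (⟨y, hyV⟩ : V') = 0 := by
      have h1 := hrv ⟨y, hyV⟩
      have h2 : B P y = r (⟨y, hyV⟩ : V') • β := h1
      rw [hPy] at h2
      exact (smul_eq_zero.1 h2.symm).resolve_right hβ0
    have hPFr : PF fun t => r (ψ t) := hψ r
    have hPVψ : PV fun t => ((ψ t : V') : V) := hψ.lin V'.subtype
    refine ⟨fun t => l₀ (B (ψ t) (ψ t)) • P - (2 * r (ψ t)) • (ψ t : V), ?_, ?_, ?_, ?_⟩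
    · refine PV.sub (PV.smul ?_ (PV.const P)) (PV.smul ((PF.const 2).mul hPFr) hPVψ)
      exact (PV.bil B hPVψ hPVψ) l₀
    · intro t
      have h1 := hψN t
      have h2 := hrv (ψ t)
      obtain ⟨κ, hκ⟩ : ∃ κ, κ = l₀ (B (ψ t) (ψ t)) := ⟨_, rfl⟩
      dsimp only
      rw [← hκ] at h1 ⊢
      simp only [map_sub, map_smul, LinearMap.sub_apply, LinearMap.smul_apply, hP, h1, h2,
        hB (ψ t : V) P]
      module
    · refine ⟨c * c, mul_ne_zero hc hc, ?_⟩
      simp only [hψc, map_smul, hry, smul_zero, mul_zero, zero_smul, sub_zero,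
        LinearMap.smul_apply]
      show l₀ (B (c • (y : V)) (c • (y : V))) • P = (c * c) • P
      simp only [map_smul, LinearMap.smul_apply, ← hβ, hl₀, smul_eq_mul, mul_one]
    · by_cases hαP : α P = 0
      · have hα1 : ∃ t, α (ψ t : V) ≠ 0 := by
          rcases hS3 y hy2 with h | ⟨μ, hμ, hμ0⟩
          · refine ⟨0, ?_⟩
            rw [hψc]
            show α (c • (y : V)) ≠ 0
            rw [map_smul, smul_eq_mul]
            exact mul_ne_zero hc h
          · refine ⟨t₀, ?_⟩
            rw [hμ, LinearMap.comp_apply, hrv, map_smul, smul_eq_mul]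
            rw [← hβ] at hμ0
            exact mul_ne_zero ht₀ hμ0
        obtain ⟨t, ht1, ht2⟩ := PF.both hPFr (hPVψ α) ⟨t₀, ht₀⟩ hα1
        refine ⟨t, ?_⟩
        simp only [map_sub, map_smul, hαP, smul_eq_mul, mul_zero, zero_sub]
        exact neg_ne_zero.2 (mul_ne_zero (mul_ne_zero two_ne_zero ht1) ht2)
      · refine ⟨0, ?_⟩
        simp only [hψc, map_smul, hry, smul_zero, mul_zero, zero_smul, sub_zero,
          LinearMap.smul_apply]
        show l₀ (B (c • (y : V)) (c • (y : V))) • α P ≠ 0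
        simp only [map_smul, LinearMap.smul_apply, ← hβ, hl₀, smul_eq_mul, mul_one]
        exact mul_ne_zero (mul_ne_zero hc hc) hαP

end Pool.Agent.V7H85.QS
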