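import Pool.Agent.R565.QF.Fam

/-!
# Plane curves: values outside of a family of points
-/

set_option autoImplicit false
set_option linter.unusedSectionVars false

namespace Pool.Agent.V7H85.QS

open Polynomial Pool.Agent.TH783.CE

variable {K : Type} [Field K] [CharZero K] {O : Set K}

/-- the projection of a plane curve, outside of the zeros of `h₀ + h₁ y`, into a flat set is thin -/
theorem thin_curve' (hO : Flat O) (G : K[X][X]) (h₀ h₁ : K[X])
    (h : ∀ a y, G.evalEval a y = 0 → h₀.eval a + h₁.eval a * y ≠ 0 → a ∈ O) :
    Thin {a | ∃ y, G.evalEval a y = 0 ∧ h₀.eval a + h₁.eval a * y ≠ 0} := by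
  by_cases hG : G = 0
  · subst hG
    by_cases h1 : h₁ = 0
    · subst h1
      by_cases h2 : h₀ = 0
      · subst h2
        refine Thin.of_finite ?_
        have : {a : K | ∃ y, (0 : K[X][X]).evalEval a y = 0 ∧
            (0 : K[X]).eval a + (0 : K[X]).eval a * y ≠ 0} = ∅ := by
          rw [Set.eq_empty_iff_forall_notMem]
          rintro a ⟨y, -, hy⟩
          exact hy (by simp)
        rw [this]
        exact Set.finite_empty
      · exact absurd (fun t ht => h t 0 (by simp) (by simpa using ht)) (Flat.no_all hO h2)
    · refine absurd (fun t ht => h t ((1 - h₀.eval t) / h₁.eval t) (by simp) ?_)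
        (Flat.no_all hO h1)
      rw [mul_div_cancel₀ _ ht, add_sub_cancel]
      exact one_ne_zero
  rcases Nat.eq_zero_or_pos G.natDegree with hd | hd
  · rw [eq_C_of_natDegree_eq_zero hd] at hG ⊢
    have hg : G.coeff 0 ≠ 0 := by
      intro h0
      exact hG (by rw [h0, C_0])
    refine Thin.of_finite ?_
    refine (Polynomial.finite_setOfPred_isRoot hg).subset ?_
    rintro a ⟨w, hw, -⟩
    rw [evalEval_C] at hw
    exact hw
  · have key : ∀ a w : K, (integralNormalization G).evalEval a (G.leadingCoeff.eval a * w) =
        (G.leadingCoeff.eval a) ^ (G.natDegree - 1) * G.evalEval a w := by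
      intro a w
      have := integralNormalization_eval₂_leadingCoeff_mul (p := G) hd (evalRingHom a) w
      simp only [eval₂_evalRingHom, coe_evalRingHom] at this
      exact this
    have hmon := monic_integralNormalization hG
    obtain ⟨q, hq, -, hqr⟩ := exists_prod_multiset_X_sub_C_mul (integralNormalization G)
    have hmonp : ((integralNormalization G).roots.map fun a => X - C a).prod.Monic :=
      monic_multisetProd_X_sub_C _
    have hqm : q.Monic := by
      refine Monic.of_mul_monic_left hmonp ?_
      rw [hq]
      exact hmon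
    have hlc : G.leadingCoeff ≠ 0 := leadingCoeff_ne_zero.2 hG
    refine ⟨_, Polynomial.finite_setOfPred_isRoot hlc, q, hqm, fun g hg => ?_, ?_⟩
    · have h1 : g ∈ q.roots := by
        rw [mem_roots hqm.ne_zero]
        exact hg
      rw [hqr] at h1
      exact absurd h1 (Multiset.notMem_zero g)
    · rintro a ⟨y, hy, hy'⟩
      by_cases ha : G.leadingCoeff.eval a = 0
      · exact Or.inl ha
      right
      refine ⟨G.leadingCoeff.eval a * y, ?_⟩
      have h1 := key a y
      rw [hy, mul_zero, ← hq, evalEval_mul] at h1
      rcases mul_eq_zero.1 h1 with h2 | h2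
      swap
      · exact h2
      exfalso
      -- a root of the product
      obtain ⟨g, hg, hga⟩ : ∃ g ∈ (integralNormalization G).roots,
          G.leadingCoeff.eval a * y = g.eval a := by
        have h3 : ∀ s : Multiset K[X], (s.map fun a => (X - C a : K[X][X])).prod.evalEval a
            (G.leadingCoeff.eval a * y) = 0 → ∃ g ∈ s, G.leadingCoeff.eval a * y = g.eval a := by
          intro s
          induction s using Multiset.induction_on with
          | empty =>
            intro h4
            rw [Multiset.map_zero, Multiset.prod_zero, evalEval_one] at h4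
            exact absurd h4 one_ne_zero
          | cons g s ihs =>
            intro h4
            rw [Multiset.map_cons, Multiset.prod_cons, evalEval_mul] at h4
            rcases mul_eq_zero.1 h4 with h5 | h5
            · refine ⟨g, Multiset.mem_cons_self _ _, ?_⟩
              rw [evalEval_sub, evalEval_X, evalEval_C, sub_eq_zero] at h5
              exact h5
            · obtain ⟨g', hg', hg''⟩ := ihs h5
              exact ⟨g', Multiset.mem_cons_of_mem hg', hg''⟩
        exact h3 _ h2
      have hroot : (integralNormalization G).eval g = 0 :=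
        (mem_roots (hmon.ne_zero)).1 hg
      have hk : G.leadingCoeff * h₀ + h₁ * g ≠ 0 := by
        intro h0
        have h4 := congrArg (eval a) h0
        rw [eval_add, eval_mul, eval_mul, eval_zero, ← hga] at h4
        have h5 : G.leadingCoeff.eval a * (h₀.eval a + h₁.eval a * y) = 0 := by
          linear_combination h4
        exact hy' ((mul_eq_zero.1 h5).resolve_left ha)
      refine Flat.no_all hO (q := G.leadingCoeff * (G.leadingCoeff * h₀ + h₁ * g))
        (mul_ne_zero hlc hk) fun t ht => ?_
      rw [eval_mul] at ht
      have ht1 := left_ne_zero_of_mul ht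
      have ht2 := right_ne_zero_of_mul ht
      rw [eval_add, eval_mul, eval_mul] at ht2
      refine h t (g.eval t / G.leadingCoeff.eval t) ?_ ?_
      · have h1 := key t (g.eval t / G.leadingCoeff.eval t)
        rw [mul_div_cancel₀ _ ht1, evalEval_eval, hroot, eval_zero] at h1
        exact (mul_eq_zero.1 h1.symm).resolve_left (pow_ne_zero _ ht1)
      · intro h0
        apply ht2
        have h6 : G.leadingCoeff.eval t * (g.eval t / G.leadingCoeff.eval t) = g.eval t :=
          mul_div_cancel₀ _ ht1
        have h7 : G.leadingCoeff.eval t * (h₀.eval t + h₁.eval t *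
            (g.eval t / G.leadingCoeff.eval t)) = 0 := by rw [h0, mul_zero]
        linear_combination h7 - h₁.eval t * h6

/-- polynomial functions of two variables -/
def PF2 (f : K → K → K) : Prop := ∃ G : K[X][X], ∀ a y, f a y = G.evalEval a y

lemma PF2.const (c : K) : PF2 fun _ _ : K => c := ⟨C (C c), fun a y => by
  rw [evalEval_C, eval_C]⟩

lemma PF2.fst : PF2 fun a _ : K => a := ⟨C X, fun a y => by rw [evalEval_C, eval_X]⟩

lemma PF2.snd : PF2 fun _ y : K => y := ⟨X, fun a y => by rw [evalEval_X]⟩

lemma PF2.add {f g : K → K → K} (hf : PF2 f) (hg : PF2 g) : PF2 fun a y => f a y + g a y := by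
  obtain ⟨p, hp⟩ := hf
  obtain ⟨q, hq⟩ := hg
  exact ⟨p + q, fun a y => by simp only [evalEval_add, hp, hq]⟩

lemma PF2.sub {f g : K → K → K} (hf : PF2 f) (hg : PF2 g) : PF2 fun a y => f a y - g a y := by
  obtain ⟨p, hp⟩ := hf
  obtain ⟨q, hq⟩ := hg
  exact ⟨p - q, fun a y => by simp only [evalEval_sub, hp, hq]⟩

lemma PF2.mul {f g : K → K → K} (hf : PF2 f) (hg : PF2 g) : PF2 fun a y => f a y * g a y := by
  obtain ⟨p, hp⟩ := hf
  obtain ⟨q, hq⟩ := hg
  exact ⟨p * q, fun a y => by simp only [evalEval_mul, hp, hq]⟩

end Pool.Agent.V7H85.QS
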