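import Pool.Agent.V7H85.QS.Smooth

/-!
# Systems of quadratic equations given by matrices
-/

set_option autoImplicit false
set_option linter.unusedSectionVars false

namespace Pool.Agent.V7H85.QS

open Module LinearMap Pool.Agent.TH783.CE Matrix

variable {K : Type} [Field K]

/-- The point `(1, a, z)`. -/
def pt {n : ℕ} (a : K) (z : Fin n → K) : Fin (n + 2) → K := vecCons 1 (vecCons a z)

/-- The value at `(1, a, z)` of the quadratic form with matrix `A`: a polynomial of degree at most
two in `(a, z)`. -/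
def form {n : ℕ} (A : Matrix (Fin (n + 2)) (Fin (n + 2)) K) (a : K) (z : Fin n → K) : K :=
  pt a z ⬝ᵥ A *ᵥ pt a z

section bil

variable {m N : ℕ}

/-- the bilinear map given by several matrices -/
def bilm (A : Fin m → Matrix (Fin N) (Fin N) K) : (Fin N → K) →ₗ[K] (Fin N → K) →ₗ[K] (Fin m → K) :=
  LinearMap.mk₂ K (fun u v j => u ⬝ᵥ A j *ᵥ v)
    (fun u u' v => by ext j; simp [add_dotProduct])
    (fun c u v => by ext j; simp [smul_dotProduct])
    (fun u v v' => by ext j; simp [mulVec_add, dotProduct_add])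
    (fun c u v => by ext j; simp [mulVec_smul, dotProduct_smul])

lemma bilm_apply (A : Fin m → Matrix (Fin N) (Fin N) K) (u v : Fin N → K) (j : Fin m) :
    bilm A u v j = u ⬝ᵥ A j *ᵥ v := rfl

lemma bilm_symm (A : Fin m → Matrix (Fin N) (Fin N) K) (hA : ∀ j, (A j).IsSymm) (u v : Fin N → K) :
    bilm A u v = bilm A v u := by
  ext j
  rw [bilm_apply, bilm_apply, dotProduct_mulVec, ← mulVec_transpose, (hA j).eq, dotProduct_comm]

lemma bilm_functional (A : Fin m → Matrix (Fin N) (Fin N) K) (l : (Fin m → K) →ₗ[K] K)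
    (u v : Fin N → K) :
    l (bilm A u v) = u ⬝ᵥ (∑ j, l (Pi.single j 1) • A j) *ᵥ v := by
  have h1 : bilm A u v = ∑ j, bilm A u v j • (Pi.single j 1 : Fin m → K) := by
    conv_lhs => rw [← Finset.univ_sum_single (bilm A u v)]
    refine Finset.sum_congr rfl fun j _ => ?_
    rw [← Pi.single_smul]
    simp
  rw [h1, map_sum, Matrix.sum_mulVec, dotProduct_sum]
  refine Finset.sum_congr rfl fun j _ => ?_
  rw [map_smul, smul_mulVec, dotProduct_smul, bilm_apply, smul_eq_mul, smul_eq_mul, mul_comm]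

lemma rank_bilm (A : Fin m → Matrix (Fin N) (Fin N) K) (hA : ∀ j, (A j).IsSymm)
    (l : (Fin m → K) →ₗ[K] K) :
    finrank K (range ((bilm A).compr₂ l)) = (∑ j, l (Pi.single j 1) • A j).rank := by
  have h1 : (bilm A).compr₂ l = (dotProductEquiv K (Fin N)).toLinearMap ∘ₗ
      (∑ j, l (Pi.single j 1) • A j).mulVecLin := by
    refine LinearMap.ext fun u => LinearMap.ext fun v => ?_
    have hs : (∑ j, l (Pi.single j 1) • A j)ᵀ = ∑ j, l (Pi.single j 1) • A j := by
      rw [transpose_sum]
      refine Finset.sum_congr rfl fun j _ => ?_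
      rw [transpose_smul, (hA j).eq]
    have h2 : ((bilm A).compr₂ l) u v = l (bilm A u v) := rfl
    have h3 : ((dotProductEquiv K (Fin N)).toLinearMap ∘ₗ
      (∑ j, l (Pi.single j 1) • A j).mulVecLin) u v =
      ((∑ j, l (Pi.single j 1) • A j) *ᵥ u) ⬝ᵥ v := rfl
    rw [h2, h3, bilm_functional, dotProduct_mulVec, ← mulVec_transpose, hs]
  rw [h1, LinearMap.range_comp, LinearEquiv.finrank_map_eq, Matrix.rank]

end bil

section sys

variable {m n : ℕ}

/-- the coordinates -/
def co (i : Fin (n + 2)) : (Fin (n + 2) → K) →ₗ[K] K := LinearMap.proj i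

lemma co_apply (i : Fin (n + 2)) (P : Fin (n + 2) → K) : co i P = P i := rfl

lemma pt_of {P : Fin (n + 2) → K} (h : P 0 ≠ 0) :
    P = P 0 • pt (P 1 / P 0) (fun i => P i.succ.succ / P 0) := by
  ext i
  refine Fin.cases ?_ (fun i => Fin.cases ?_ (fun i => ?_) i) i
  · simp [pt]
  · simp only [pt, Pi.smul_apply, cons_val_succ, cons_val_zero, smul_eq_mul]
    rw [mul_div_cancel₀ _ h]
    rfl
  · simp only [pt, Pi.smul_apply, cons_val_succ, smul_eq_mul]
    rw [mul_div_cancel₀ _ h]

lemma form_of {P : Fin (n + 2) → K} (h : P 0 ≠ 0) (A : Fin m → Matrix (Fin (n + 2)) (Fin (n + 2)) K)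
    (hP : bilm A P P = 0) (j : Fin m) :
    form (A j) (P 1 / P 0) (fun i => P i.succ.succ / P 0) = 0 := by
  rw [pt_of h] at hP
  have h1 := congrFun hP j
  rw [map_smul, LinearMap.map_smul₂, Pi.smul_apply, Pi.smul_apply, bilm_apply, smul_eq_mul,
    smul_eq_mul, Pi.zero_apply] at h1
  exact (mul_eq_zero.1 ((mul_eq_zero.1 h1).resolve_left h)).resolve_left h

lemma bilm_pt (A : Fin m → Matrix (Fin (n + 2)) (Fin (n + 2)) K) {a : K} {z : Fin n → K}
    (h : ∀ j, form (A j) a z = 0) : bilm A (pt a z) (pt a z) = 0 := by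
  ext j
  exact h j

lemma values_of {O : Set K} (A : Fin m → Matrix (Fin (n + 2)) (Fin (n + 2)) K)
    (h : ∀ (a : K) (z : Fin n → K), (∀ j, form (A j) a z = 0) → a ∈ O) (P : Fin (n + 2) → K)
    (hP : bilm A P P = 0) (hP0 : co 0 P ≠ 0) : co 1 P / co 0 P ∈ O :=
  h _ _ fun j => form_of hP0 A hP j

lemma co_ind (c : K) : (co 1 : (Fin (n + 2) → K) →ₗ[K] K) ≠ c • co 0 := by
  intro h
  have h1 := LinearMap.congr_fun h (Pi.single 1 1)
  rw [LinearMap.smul_apply, co_apply, co_apply] at h1
  simp at h1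

/-- all solutions of a system of high rank are singular if the first variable has values in a flat
set -/
theorem sys_sing [CharZero K] {O : Set K} (hO : Flat O)
    (A : Fin m → Matrix (Fin (n + 2)) (Fin (n + 2)) K) (hA : ∀ j, (A j).IsSymm)
    (hr : ∀ c : Fin m → K, c ≠ 0 → m * (m - 1) + 3 ≤ (∑ j, c j • A j).rank)
    (h : ∀ (a : K) (z : Fin n → K), (∀ j, form (A j) a z = 0) → a ∈ O)
    (a : K) (z : Fin n → K) (hz : ∀ j, form (A j) a z = 0) :
    ∃ c : Fin m → K, c ≠ 0 ∧ (∑ j, c j • A j) *ᵥ pt a z = 0 := by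
  by_contra hcon
  push Not at hcon
  have hs : Function.Surjective (bilm A (pt a z)) := by
    by_contra hns
    have hne : range (bilm A (pt a z)) ≠ ⊤ := fun h0 => hns (LinearMap.range_eq_top.1 h0)
    obtain ⟨l, hl0, hl⟩ := Submodule.exists_dual_map_eq_bot_of_lt_top (lt_top_iff_ne_top.2 hne)
      inferInstance
    have hl' : ∀ x, l (bilm A (pt a z) x) = 0 := fun x => by
      have h1 : l (bilm A (pt a z) x) ∈ (range (bilm A (pt a z))).map l :=
        Submodule.mem_map_of_mem ⟨x, rfl⟩
      rw [hl] at h1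
      exact (Submodule.mem_bot K).1 h1
    refine hcon (fun j => l (Pi.single j 1)) ?_ ?_
    · intro h0
      apply hl0
      refine LinearMap.pi_ext' fun j => LinearMap.ext_ring ?_
      exact congrFun h0 j
    · refine (dotProduct_eq_zero_iff).1 ?_
      intro x
      rw [dotProduct_comm, ← bilm_functional, bilm_symm A hA]
      exact hl' x
  obtain ⟨c, hc⟩ := smooth_zero (x₀ := co 0) (x₁ := co 1) hO (bilm A) (bilm_symm A hA) (by
      intro l hl
      rw [rank_bilm A hA, finrank_fin_fun]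
      refine hr _ ?_
      intro h0
      apply hl
      refine LinearMap.pi_ext' fun j => LinearMap.ext_ring ?_
      exact congrFun h0 j) (values_of A h) (bilm_pt A hz) hs (by
      rw [co_apply]
      exact one_ne_zero)
  exact co_ind c hc

end sys

end Pool.Agent.V7H85.QS
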