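import Pool.Agent.V7H85.QS.Singular
import Pool.Agent.V7H85.QS.Elim

/-!
# Nonsingular pencils of quadratic forms
-/

set_option autoImplicit false
set_option linter.unusedSectionVars false

namespace Pool.Agent.V7H85.QS

open Module LinearMap Pool.Agent.TH783.CE

variable {K : Type} [Field K] [CharZero K]
variable {V E : Type} [AddCommGroup V] [Module K V] [AddCommGroup E] [Module K E]

variable {O : Set K} {B : V →ₗ[K] V →ₗ[K] E} {x₀ x₁ : V →ₗ[K] K}

/-- the degenerate forms of a nonsingular pencil are proportional to finitely many ones -/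
lemma finite_deg [FiniteDimensional K V] [FiniteDimensional K E] (hE : finrank K E = 2)
    {l₀ : E →ₗ[K] K} (hl₀ : l₀ ≠ 0) (hns : ∀ n : V, n ≠ 0 → ∃ v, l₀ (B n v) ≠ 0) :
    ∃ F : Set (E →ₗ[K] K), F.Finite ∧ (∀ μ ∈ F, μ ≠ 0 ∧ ∃ n : V, n ≠ 0 ∧ ∀ v, μ (B n v) = 0) ∧
      ∀ μ : E →ₗ[K] K, μ ≠ 0 → (∃ n : V, n ≠ 0 ∧ ∀ v, μ (B n v) = 0) →
        ∃ μ' ∈ F, ∃ c : K, μ' = c • μ := by
  obtain ⟨l', e, e', a1, a2, a3, a4, a5⟩ := dual_pair hE hl₀
  have hinj : Function.Injective (pen B l₀) := by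
    rw [injective_iff_map_eq_zero]
    intro n hn
    by_contra h0
    obtain ⟨v, hv⟩ := hns n h0
    exact hv (LinearMap.congr_fun hn v)
  have hfin := fin_inj (pen B l₀) (pen B l') hinj
  refine ⟨{μ | μ ∈ ({l'} ∪ (fun t : K => l₀ + t • l') '' {t : K | ¬ Function.Injective
    (pen B l₀ + t • pen B l' : V →ₗ[K] (V →ₗ[K] K))} : Set (E →ₗ[K] K)) ∧
    ∃ n : V, n ≠ 0 ∧ ∀ v, μ (B n v) = 0}, ?_, ?_, ?_⟩
  · exact ((Set.finite_singleton l').union (hfin.image _)).subset fun μ hμ => hμ.1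
  · rintro μ ⟨hμ, hμ'⟩
    refine ⟨?_, hμ'⟩
    rcases hμ with hμ | ⟨t, -, rfl⟩
    · rw [Set.mem_singleton_iff] at hμ
      rw [hμ]
      rintro rfl
      rw [LinearMap.zero_apply] at a4
      exact zero_ne_one a4
    · intro h0
      have h1 := LinearMap.congr_fun h0 e
      simp only [LinearMap.add_apply, LinearMap.smul_apply, a1, a3, smul_zero, add_zero,
        LinearMap.zero_apply] at h1
      exact one_ne_zero h1
  · rintro μ hμ0 ⟨n, hn, hn'⟩
    have hμ : μ = μ e • l₀ + μ e' • l' := by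
      ext x
      conv_lhs => rw [a5 x]
      simp only [map_add, map_smul, smul_eq_mul, LinearMap.add_apply, LinearMap.smul_apply]
      ring
    by_cases h : μ e = 0
    · rw [h, zero_smul, zero_add] at hμ
      have h1 : μ e' ≠ 0 := by
        intro h1
        rw [h1, zero_smul] at hμ
        exact hμ0 hμ
      have h2 : l' = (μ e')⁻¹ • μ := by
        rw [hμ, LinearMap.smul_apply, a4, smul_eq_mul, mul_one, smul_smul, inv_mul_cancel₀ h1,
          one_smul]
      refine ⟨l', ⟨Or.inl rfl, n, hn, fun v => ?_⟩, _, h2⟩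
      rw [h2, LinearMap.smul_apply, hn', smul_zero]
    · have h2 : l₀ + (μ e' / μ e) • l' = (μ e)⁻¹ • μ := by
        ext x
        have h3 := LinearMap.congr_fun hμ x
        simp only [LinearMap.add_apply, LinearMap.smul_apply, smul_eq_mul] at h3 ⊢
        rw [h3]
        field_simp
      have h3 : ∀ v, (l₀ + (μ e' / μ e) • l') (B n v) = 0 := fun v => by
        rw [h2, LinearMap.smul_apply, hn', smul_zero]
      refine ⟨_, ⟨Or.inr ⟨μ e' / μ e, ?_, rfl⟩, n, hn, h3⟩, _, h2⟩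
      intro hc
      apply hn
      refine (injective_iff_map_eq_zero _).1 hc n ?_
      ext v
      exact h3 v

lemma not_surj [FiniteDimensional K E] {P : V} (h : ¬ Function.Surjective (B P)) :
    ∃ l : E →ₗ[K] K, l ≠ 0 ∧ ∀ v, l (B P v) = 0 := by
  have hne : range (B P) ≠ ⊤ := fun h0 => h (LinearMap.range_eq_top.1 h0)
  obtain ⟨l, hl0, hl⟩ := Submodule.exists_dual_map_eq_bot_of_lt_top (lt_top_iff_ne_top.2 hne)
    inferInstance
  refine ⟨l, hl0, fun x => ?_⟩
  have h1 : l (B P x) ∈ (range (B P)).map l := Submodule.mem_map_of_mem ⟨x, rfl⟩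
  rw [hl] at h1
  exact (Submodule.mem_bot K).1 h1

/-- nonsingular pencils in at least five variables -/
theorem case_big [FiniteDimensional K V] [FiniteDimensional K E] (hE : finrank K E = 2)
    (hB : ∀ u v, B u v = B v u) (hO : Flat O) (h : ∀ P, B P P = 0 → x₀ P ≠ 0 → x₁ P / x₀ P ∈ O)
    (ih : ∀ W : Submodule K V, W ≠ ⊤ → Thin (DW B x₀ x₁ W)) (hd : 5 ≤ finrank K V)
    (hind : Ind x₀ x₁) (hz : ∀ l : E →ₗ[K] K, l ≠ 0 → ∃ u v, l (B u v) ≠ 0)
    (hrad : ∀ n : V, n ≠ 0 → ∃ v, B n v ≠ 0)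
    (hiso : ∀ l : E →ₗ[K] K, l ≠ 0 → ∀ η : V →ₗ[K] K, η ≠ 0 →
      ∃ u v, η u = 0 ∧ η v = 0 ∧ l (B u v) ≠ 0)
    {F : Set (E →ₗ[K] K)} (hF : F.Finite)
    (hF1 : ∀ μ ∈ F, μ ≠ 0 ∧ ∃ n : V, n ≠ 0 ∧ ∀ v, μ (B n v) = 0)
    (hF2 : ∀ μ : E →ₗ[K] K, μ ≠ 0 → (∃ n : V, n ≠ 0 ∧ ∀ v, μ (B n v) = 0) →
        ∃ μ' ∈ F, ∃ c : K, μ' = c • μ) : Thin (DB B x₀ x₁) := by
  have hkm : ∀ (μ : E →ₗ[K] K) (n : V), n ∈ ker (B.compr₂ μ) ↔ ∀ v, μ (B n v) = 0 := by
    intro μ n
    rw [LinearMap.mem_ker]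
    exact ⟨fun h v => LinearMap.congr_fun h v, fun h => LinearMap.ext h⟩
  have h1 : ∀ μ ∈ F, ker (B.compr₂ μ) ≠ ⊤ := by
    intro μ hμ h0
    obtain ⟨u, v, huv⟩ := hz μ (hF1 μ hμ).1
    have h1 : u ∈ ker (B.compr₂ μ) := by
      rw [h0]
      exact Submodule.mem_top
    exact huv ((hkm μ u).1 h1 v)
  have h2 : ∀ μ ∈ F, orth B (ker (B.compr₂ μ)) ≠ ⊤ := by
    intro μ hμ
    obtain ⟨-, n, hn, hn'⟩ := hF1 μ hμ
    exact orth_ne_top hB ((hkm μ n).2 hn') (hrad n hn)
  refine ((Thin.biUnion hF fun μ hμ => ih _ (h1 μ hμ)).union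
    (Thin.biUnion hF fun μ hμ => ih _ (h2 μ hμ))).mono ?_
  rintro t ⟨P, hP, hP0, hPt⟩
  have hPne : P ≠ 0 := by
    rintro rfl
    exact hP0 (map_zero _)
  by_cases hs : Function.Surjective (B P)
  · right
    have hα : x₁ - t • x₀ ≠ 0 := by
      intro h0
      have h3 := (hind (-t) 1 fun v => by
        have := LinearMap.congr_fun h0 v
        rw [LinearMap.sub_apply, LinearMap.smul_apply, smul_eq_mul, LinearMap.zero_apply] at this
        linear_combination this).2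
      exact one_ne_zero h3
    obtain ⟨μ, hμ0, hμ⟩ : ∃ μ : E →ₗ[K] K, μ ≠ 0 ∧
        ∀ u v, B P u = 0 → B P v = 0 → μ (B u v) = 0 := by
      by_contra hcon
      push Not at hcon
      obtain ⟨φ, hφ, hφ0, ⟨c, hc, hφc⟩, s, hs'⟩ := pair_curve hE B hB hP hs hα
        (fun l hl => by
          obtain ⟨u, v, a, b, c⟩ := hcon l hl
          exact ⟨u, v, a, b, c⟩)
      obtain ⟨d, hd⟩ := curve_flat (x₀ := x₀) (x₁ := x₁) hO hφ (fun t ht => h _ (hφ0 t) ht)
        ⟨0, by rw [hφc, map_smul, smul_eq_mul]; exact mul_ne_zero hc hP0⟩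
      have h3 := hd 0
      rw [hφc, map_smul, map_smul, smul_eq_mul, smul_eq_mul] at h3
      have h4 : x₁ P = d * x₀ P := mul_left_cancel₀ hc (by linear_combination h3)
      have h5 : t = d := mul_right_cancel₀ hP0 (hPt.symm.trans h4)
      apply hs'
      rw [LinearMap.sub_apply, LinearMap.smul_apply, hd s, h5, smul_eq_mul, sub_self]
    -- the form is degenerate
    have hdeg : ∃ n : V, n ≠ 0 ∧ ∀ v, μ (B n v) = 0 := by
      obtain ⟨T, hT⟩ : ∃ T : Submodule K V, T = ker (B P) := ⟨_, rfl⟩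
      have hTd : finrank K V ≤ finrank K T + 2 := by
        have h3 := rank_add_ker (B P)
        rw [LinearMap.range_eq_top.2 hs, finrank_top, hE, ← hT] at h3
        omega
      have h3 := rank_restrict (B.compr₂ μ) T 2 hTd
      have h4 : (B.compr₂ μ).compl₁₂ T.subtype T.subtype = 0 := by
        have hmem : ∀ x ∈ T, B P x = 0 := fun x hx => by
          rw [hT] at hx
          exact hx
        ext u v
        exact hμ u v (hmem u u.2) (hmem v v.2)
      rw [h4, LinearMap.range_zero, finrank_bot] at h3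
      have h5 := rank_add_ker (B.compr₂ μ)
      have h6 : 0 < finrank K (ker (B.compr₂ μ)) := by omega
      obtain ⟨⟨n, hn⟩, hn0⟩ := Module.finrank_pos_iff_exists_ne_zero.1 h6
      exact ⟨n, fun h0 => hn0 (Subtype.ext h0), (hkm μ n).1 hn⟩
    obtain ⟨μ', hμ'F, c, hc⟩ := hF2 μ hμ0 hdeg
    have hμ'0 := (hF1 μ' hμ'F).1
    have hμ' : ∀ u v, B P u = 0 → B P v = 0 → μ' (B u v) = 0 := by
      intro u v hu hv
      rw [hc, LinearMap.smul_apply, hμ u v hu hv, smul_zero]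
    refine Set.mem_biUnion hμ'F ⟨P, ?_, hP, hP0, hPt⟩
    rw [mem_orth]
    intro n hn
    rw [hkm] at hn
    by_contra hPn
    -- a totally isotropic hyperplane
    obtain ⟨lam, hlam0, hlam⟩ : ∃ lam : E →ₗ[K] K, lam ≠ 0 ∧ lam (B P n) = 0 := by
      have hlt : Submodule.span K {B P n} < ⊤ := by
        refine lt_top_iff_ne_top.2 fun h => ?_
        have h1 := finrank_span_singleton (K := K) hPn
        rw [h, finrank_top] at h1
        omega
      obtain ⟨lam, hlam0, hlam⟩ := Submodule.exists_dual_map_eq_bot_of_lt_top hlt inferInstance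
      refine ⟨lam, hlam0, ?_⟩
      have h1 := Submodule.mem_map_of_mem (f := lam)
        (Submodule.mem_span_singleton_self (R := K) (B P n))
      rw [hlam] at h1
      exact (Submodule.mem_bot K).1 h1
    obtain ⟨l', e, e', a1, a2, a3, a4, a5⟩ := dual_pair hE hlam0
    have hη0 : lam ∘ₗ B P ≠ 0 := by
      intro h0
      obtain ⟨w, hw⟩ := hs e
      have h3 := LinearMap.congr_fun h0 w
      rw [LinearMap.comp_apply, hw, a1] at h3
      exact one_ne_zero h3
    obtain ⟨u, v, hu, hv, huv⟩ := hiso μ' hμ'0 _ hη0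
    have hl'n : l' (B P n) ≠ 0 := by
      intro h0
      apply hPn
      rw [a5 (B P n), hlam, h0, zero_smul, zero_smul, add_zero]
    have hdec : ∀ u, (lam ∘ₗ B P) u = 0 → B P (u - (l' (B P u) / l' (B P n)) • n) = 0 := by
      intro u hu
      have h3 : lam (B P u) = 0 := hu
      have h4 := a5 (B P u)
      have h5 := a5 (B P n)
      rw [h3, zero_smul, zero_add] at h4
      rw [hlam, zero_smul, zero_add] at h5
      rw [map_sub, map_smul]
      conv_lhs => rw [h4, h5]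
      simp only [map_smul, a4, smul_eq_mul, mul_one]
      rw [smul_smul, div_mul_cancel₀ _ hl'n, sub_self]
    apply huv
    have h3 := hμ' _ _ (hdec u hu) (hdec v hv)
    simp only [map_sub, map_smul, LinearMap.sub_apply, LinearMap.smul_apply, smul_eq_mul, hn,
      hB u n, mul_zero, sub_zero] at h3
    exact h3
  · left
    obtain ⟨μ, hμ0, hμ⟩ := not_surj hs
    obtain ⟨μ', hμ'F, c, hc⟩ := hF2 μ hμ0 ⟨P, hPne, hμ⟩
    refine Set.mem_biUnion hμ'F ⟨P, ?_, hP, hP0, hPt⟩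
    rw [hkm]
    intro v
    rw [hc, LinearMap.smul_apply, hμ, smul_zero]

end Pool.Agent.V7H85.QS
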