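import Pool.Agent.V7H85.QS.Smooth

/-!
# Rational curves on intersections of two quadrics
-/

set_option autoImplicit false
set_option linter.unusedSectionVars false

namespace Pool.Agent.V7H85.QS

open Module LinearMap

variable {K : Type} [Field K] [CharZero K]
variable {V E : Type} [AddCommGroup V] [Module K V] [AddCommGroup E] [Module K E]

/-- the last step of the construction of curves -/
theorem step [FiniteDimensional K V] (B : V →ₗ[K] V →ₗ[K] E) (hB : ∀ u v, B u v = B v u)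
    {P y : V} (hP : B P P = 0) (hPy : B P y = 0) (l₀ : E →ₗ[K] K) (hl₀ : l₀ (B y y) = 1)
    {ψ : K → V} (hψ : PV ψ) (hψN : ∀ t, B (ψ t) (ψ t) = l₀ (B (ψ t) (ψ t)) • B y y)
    (hr : ∀ t, B P (ψ t) = l₀ (B P (ψ t)) • B y y) {c : K} (hc : c ≠ 0) (hψc : ψ 0 = c • y)
    {t₀ : K} (ht₀ : l₀ (B P (ψ t₀)) ≠ 0) {α : V →ₗ[K] K}
    (hα : α y ≠ 0 ∨ ∃ μ : E →ₗ[K] K, α = μ ∘ₗ B P ∧ μ (B y y) ≠ 0) :
    ∃ φ : K → V, PV φ ∧ (∀ t, B (φ t) (φ t) = 0) ∧ (∃ c : K, c ≠ 0 ∧ φ 0 = c • P) ∧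
      ∃ t, α (φ t) ≠ 0 := by
  obtain ⟨r, hr'⟩ : ∃ r : V →ₗ[K] K, r = l₀ ∘ₗ B P := ⟨_, rfl⟩
  have hrv : ∀ x : V, l₀ (B P x) = r x := fun x => by rw [hr']; rfl
  simp only [hrv] at hr ht₀
  have hry : r y = 0 := by rw [← hrv, hPy, map_zero]
  obtain ⟨β, hβ⟩ : ∃ β : E, β = B y y := ⟨_, rfl⟩
  rw [← hβ] at hl₀
  simp only [← hβ] at hψN hr hα
  have hPFr : PF fun t => r (ψ t) := hψ r
  refine ⟨fun t => l₀ (B (ψ t) (ψ t)) • P - (2 * r (ψ t)) • ψ t, ?_, ?_, ?_, ?_⟩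
  · refine PV.sub (PV.smul ?_ (PV.const P)) (PV.smul ((PF.const 2).mul hPFr) hψ)
    exact (PV.bil B hψ hψ) l₀
  · intro t
    have h1 := hψN t
    have h2 := hr t
    obtain ⟨κ, hκ⟩ : ∃ κ, κ = l₀ (B (ψ t) (ψ t)) := ⟨_, rfl⟩
    dsimp only
    rw [← hκ] at h1 ⊢
    simp only [map_sub, map_smul, LinearMap.sub_apply, LinearMap.smul_apply, hP, h1, h2,
      hB (ψ t) P]
    module
  · refine ⟨c * c, mul_ne_zero hc hc, ?_⟩
    simp only [hψc, map_smul, hry, smul_zero, mul_zero, zero_smul, sub_zero,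
      LinearMap.smul_apply, ← hβ, hl₀, smul_eq_mul, mul_one]
  · by_cases hαP : α P = 0
    · have hα1 : ∃ t, α (ψ t) ≠ 0 := by
        rcases hα with h | ⟨μ, hμ, hμ0⟩
        · refine ⟨0, ?_⟩
          rw [hψc, map_smul, smul_eq_mul]
          exact mul_ne_zero hc h
        · refine ⟨t₀, ?_⟩
          rw [hμ, LinearMap.comp_apply, hr, map_smul, smul_eq_mul]
          exact mul_ne_zero ht₀ hμ0
      obtain ⟨t, ht1, ht2⟩ := PF.both hPFr (hψ α) ⟨t₀, ht₀⟩ hα1
      refine ⟨t, ?_⟩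
      simp only [map_sub, map_smul, hαP, smul_eq_mul, mul_zero, zero_sub]
      exact neg_ne_zero.2 (mul_ne_zero (mul_ne_zero two_ne_zero ht1) ht2)
    · refine ⟨0, ?_⟩
      simp only [hψc, map_smul, hry, smul_zero, mul_zero, zero_smul, sub_zero,
        LinearMap.smul_apply, ← hβ, hl₀, smul_eq_mul, mul_one]
      exact mul_ne_zero (mul_ne_zero hc hc) hαP

/-- curves on one quadric -/
lemma quadric_curve [FiniteDimensional K V] (b : V →ₗ[K] V →ₗ[K] K) (hb : ∀ u v, b u v = b v u)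
    {y : V} (hy : b y y = 0) (r : V →ₗ[K] K) (hry : r y = 0) {x : V} (hx : r x = 0)
    (hxy : b y x ≠ 0) (hr : r ≠ 0) :
    ∃ ψ : K → V, PV ψ ∧ (∀ t, b (ψ t) (ψ t) = 0) ∧ (∃ c : K, c ≠ 0 ∧ ψ 0 = c • y) ∧
      ∃ t, r (ψ t) ≠ 0 := by
  obtain ⟨u, hu⟩ : ∃ u, r u ≠ 0 := by
    by_contra hcon
    push Not at hcon
    exact hr (LinearMap.ext hcon)
  by_cases h : ∃ v, b y v = 0 ∧ b v v ≠ 0
  · obtain ⟨v₀, h1, h2⟩ := h
    obtain ⟨v₁, h3, h4⟩ := LO.both (LO.lin (b y)) (LO.lin r) ⟨x, hxy⟩ ⟨u, hu⟩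
    have hl : PV fun t : K => v₀ + t • v₁ := (PV.const _).add (PV.smul PF.id (PV.const _))
    have hyl : PF fun t : K => b y (v₀ + t • v₁) := hl (b y)
    refine ⟨fun t => b (v₀ + t • v₁) (v₀ + t • v₁) • y -
      (2 * b y (v₀ + t • v₁)) • (v₀ + t • v₁), ?_, ?_, ?_, ?_⟩
    · refine PV.sub (PV.smul ?_ (PV.const y)) (PV.smul ((PF.const 2).mul hyl) hl)
      exact (PV.bil b hl hl) LinearMap.id
    · intro t
      obtain ⟨v, hv⟩ : ∃ v, v = v₀ + t • v₁ := ⟨_, rfl⟩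
      dsimp only
      rw [← hv]
      simp only [map_sub, map_smul, LinearMap.sub_apply, LinearMap.smul_apply, hy, hb v y,
        smul_eq_mul]
      ring
    · refine ⟨b v₀ v₀, h2, ?_⟩
      simp [h1]
    · obtain ⟨t, ht1, ht2⟩ := PF.both hyl (hl r)
        (by
          refine ⟨1, ?_⟩
          simp only [one_smul, map_add, h1, zero_add]
          exact h3)
        (by
          by_contra hcon
          push Not at hcon
          have e0 := hcon 0
          have e1 := hcon 1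
          simp only [zero_smul, add_zero, one_smul, map_add] at e0 e1
          rw [e0, zero_add] at e1
          exact h4 e1)
      refine ⟨t, ?_⟩
      rw [map_sub, map_smul, map_smul, hry, smul_zero, zero_sub, smul_eq_mul]
      exact neg_ne_zero.2 (mul_ne_zero (mul_ne_zero two_ne_zero ht1) ht2)
  · push Not at h
    refine ⟨fun t => y + t • (u - (b y u / b y x) • x), ?_, ?_, ⟨1, one_ne_zero, by simp⟩, 1, ?_⟩
    · exact (PV.const _).add (PV.smul PF.id (PV.const _))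
    · intro t
      apply h
      simp only [map_add, map_smul, map_sub, hy, smul_eq_mul]
      rw [div_mul_cancel₀ _ hxy, sub_self, mul_zero, add_zero]
    · simp only [map_add, map_smul, map_sub, hry, hx, smul_eq_mul, mul_zero, sub_zero, zero_add,
        one_mul]
      exact hu

/-- **Rational curves on intersections of two quadrics.** -/
theorem pair_curve [FiniteDimensional K V] [FiniteDimensional K E] (hE : finrank K E = 2)
    (B : V →ₗ[K] V →ₗ[K] E) (hB : ∀ u v, B u v = B v u) {P : V} (hP : B P P = 0)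
    (hs : Function.Surjective (B P)) {α : V →ₗ[K] K} (hα : α ≠ 0)
    (hn : ∀ l : E →ₗ[K] K, l ≠ 0 → ∃ u v, B P u = 0 ∧ B P v = 0 ∧ l (B u v) ≠ 0) :
    ∃ φ : K → V, PV φ ∧ (∀ t, B (φ t) (φ t) = 0) ∧ (∃ c : K, c ≠ 0 ∧ φ 0 = c • P) ∧
      ∃ t, α (φ t) ≠ 0 := by
  -- the tangent space
  obtain ⟨T, hT⟩ : ∃ T : Submodule K V, T = ker (B P) := ⟨_, rfl⟩
  have hTmem : ∀ x, x ∈ T ↔ B P x = 0 := fun x => by rw [hT, LinearMap.mem_ker]
  obtain ⟨BT, hBT⟩ : ∃ BT : T →ₗ[K] T →ₗ[K] E, BT = B.compl₁₂ T.subtype T.subtype := ⟨_, rfl⟩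
  have hBTv : ∀ u v : T, BT u v = B u v := fun u v => by rw [hBT]; rfl
  have hBTs : ∀ u v, BT u v = BT v u := fun u v => by rw [hBTv, hBTv, hB]
  have hne : ∀ l : E →ₗ[K] K, l ≠ 0 → BT.compr₂ l ≠ 0 := by
    intro l hl h0
    obtain ⟨u, v, hu, hv, huv⟩ := hn l hl
    apply huv
    have := LinearMap.congr_fun (LinearMap.congr_fun h0 ⟨u, (hTmem u).2 hu⟩) ⟨v, (hTmem v).2 hv⟩
    simpa [hBTv] using this
  have hrT : ∀ l : E →ₗ[K] K, l ≠ 0 → 1 ≤ finrank K (range (BT.compr₂ l)) := by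
    intro l hl
    by_contra h0
    have h1 : finrank K (range (BT.compr₂ l)) = 0 := by omega
    rw [Submodule.finrank_eq_zero, LinearMap.range_eq_bot] at h1
    exact hne l hl h1
  have hE0 : ∃ l : E →ₗ[K] K, l ≠ 0 := by
    have : Nontrivial E := Module.nontrivial_of_finrank_pos (R := K) (by omega)
    obtain ⟨e, he⟩ := exists_ne (0 : E)
    obtain ⟨l, hl⟩ := exists_dual (K := K) he
    exact ⟨l, fun h => by rw [h] at hl; simp at hl⟩
  have hg1 : ∃ y : T, BT y y ≠ 0 := by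
    obtain ⟨l, hl⟩ := hE0
    refine exists_diag BT hBTs ?_
    rintro h
    exact hne l hl (by rw [h]; ext; simp)
  have hg3 : ∃ y : T, finrank K E ≤ finrank K (range (BT y)) :=
    exists_surj BT hBTs (fun l hl => by rw [hE]; have := hrT l hl; omega) hg1
  obtain ⟨S, hS1, hS2, hS3⟩ : ∃ S : T → Prop, LO (K := K) S ∧ (∃ y, S y) ∧ ∀ y, S y →
      (α y ≠ 0 ∨ ∃ μ : E →ₗ[K] K, α = μ ∘ₗ B P ∧ μ (B y y) ≠ 0) := by
    by_cases h : ∀ y ∈ T, α y = 0
    · obtain ⟨s, hs'⟩ := (B P).exists_rightInverse_of_surjective (LinearMap.range_eq_top.2 hs)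
      have hμ : α = (α ∘ₗ s) ∘ₗ B P := by
        ext v
        have h1 : v - s (B P v) ∈ T := by
          rw [hTmem, map_sub]
          have := LinearMap.congr_fun hs' (B P v)
          simp only [LinearMap.comp_apply, LinearMap.id_apply] at this
          rw [this, sub_self]
        have h2 := h _ h1
        rw [map_sub, sub_eq_zero] at h2
        exact h2
      have hμ0 : α ∘ₗ s ≠ 0 := by
        intro h0
        rw [h0, LinearMap.zero_comp] at hμ
        exact hα hμ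
      refine ⟨fun y => (BT.compr₂ (α ∘ₗ s)) y y ≠ 0, LO.quad _,
        exists_diag _ (fun u v => ?_) (hne _ hμ0), fun y hy => Or.inr ⟨_, hμ, ?_⟩⟩
      · show (α ∘ₗ s) (BT u v) = (α ∘ₗ s) (BT v u)
        rw [hBTs]
      · have h3 : (α ∘ₗ s) (BT y y) ≠ 0 := hy
        rwa [hBTv] at h3
    · push Not at h
      obtain ⟨y, hy, hy0⟩ := h
      exact ⟨fun y => (α ∘ₗ T.subtype) y ≠ 0, LO.lin _, ⟨⟨y, hy⟩, hy0⟩, fun y hy => Or.inl hy⟩
  obtain ⟨y, ⟨hy1, hy2⟩, hy3⟩ := LO.both ((LO.quadE BT).and hS1)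
    (LO.rank BT (finrank K E)) (LO.both (LO.quadE BT) hS1 hg1 hS2) hg3
  have hPy : B P y = 0 := (hTmem _).1 y.2
  have hβ0 : B (y : V) (y : V) ≠ 0 := by
    rw [← hBTv]
    exact hy1
  obtain ⟨l₀, hl₀⟩ := exists_dual (K := K) hβ0
  have hysurj : ∀ e : E, ∃ x ∈ T, B y x = e := by
    intro e
    have h1 : range (BT y) = ⊤ := Submodule.eq_top_of_finrank_eq
      (le_antisymm (Submodule.finrank_le _) hy3)
    obtain ⟨x, hx⟩ := LinearMap.range_eq_top.1 h1 e
    exact ⟨x, x.2, by rw [← hBTv]; exact hx⟩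
  -- the functional `lam` with kernel spanned by `B y y`
  have hlt : Submodule.span K {B (y : V) (y : V)} < ⊤ := by
    refine lt_top_iff_ne_top.2 fun h => ?_
    have h1 := finrank_span_singleton (K := K) hβ0
    rw [h, finrank_top] at h1
    omega
  obtain ⟨lam, hlam0, hlam⟩ := Submodule.exists_dual_map_eq_bot_of_lt_top hlt inferInstance
  have hlamβ : lam (B (y : V) (y : V)) = 0 := by
    have h1 := Submodule.mem_map_of_mem (f := lam)
      (Submodule.mem_span_singleton_self (R := K) (B (y : V) (y : V)))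
    rw [hlam] at h1
    exact (Submodule.mem_bot K).1 h1
  have hker : ∀ e, lam e = 0 → e = l₀ e • B (y : V) (y : V) := by
    have h1 := rank_add_ker lam
    have h2 : finrank K (range lam) = 1 := by
      have : range lam = ⊤ := LinearMap.range_eq_top.2 (LinearMap.surjective hlam0)
      rw [this, finrank_top, finrank_self]
    have h3 : finrank K (ker lam) = 1 := by omega
    have h4 : Submodule.span K {B (y : V) (y : V)} = ker lam := by
      refine Submodule.eq_of_le_of_finrank_eq ?_ ?_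
      · rw [Submodule.span_singleton_le_iff_mem]
        exact hlamβ
      · rw [h3, finrank_span_singleton hβ0]
    intro e he
    have h5 : e ∈ Submodule.span K {B (y : V) (y : V)} := by
      rw [h4]
      exact he
    obtain ⟨c, hc⟩ := Submodule.mem_span_singleton.1 h5
    rw [← hc, map_smul, hl₀, smul_eq_mul, mul_one]
  -- the subspace
  obtain ⟨V', hV'⟩ : ∃ V' : Submodule K V, V' = ker (lam ∘ₗ B P) := ⟨_, rfl⟩
  have hV'm : ∀ x, x ∈ V' ↔ lam (B P x) = 0 := fun x => by rw [hV']; rfl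
  have hTV : ∀ x ∈ T, x ∈ V' := fun x hx => by
    rw [hV'm, (hTmem x).1 hx, map_zero]
  obtain ⟨e, he⟩ : ∃ e : E, lam e ≠ 0 := by
    by_contra hcon
    push Not at hcon
    exact hlam0 (LinearMap.ext hcon)
  obtain ⟨x, hx, hxe⟩ := hysurj e
  obtain ⟨w, hw⟩ := hs (B (y : V) (y : V))
  obtain ⟨ψ, hψ, hψ0, ⟨c, hc, hψc⟩, t₀, ht₀⟩ := quadric_curve
    (V := V') ((B.compr₂ lam).compl₁₂ V'.subtype V'.subtype)
    (fun u v => by
      show lam (B u v) = lam (B v u)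
      rw [hB]) (y := ⟨y, hTV _ y.2⟩) hlamβ ((l₀ ∘ₗ B P) ∘ₗ V'.subtype)
    (by
      show l₀ (B P y) = 0
      rw [hPy, map_zero]) (x := ⟨x, hTV _ hx⟩)
    (by
      show l₀ (B P x) = 0
      rw [(hTmem x).1 hx, map_zero])
    (by
      show lam (B y x) ≠ 0
      rw [hxe]
      exact he)
    (by
      intro h0
      have h1 := LinearMap.congr_fun h0 ⟨w, by rw [hV'm, hw, hlamβ]⟩
      have h2 : l₀ (B P w) = 0 := h1
      rw [hw, hl₀] at h2
      exact one_ne_zero h2)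
  refine step B hB hP hPy l₀ hl₀ (ψ := fun t => (ψ t : V)) (hψ.lin V'.subtype)
    (fun t => hker _ (hψ0 t)) (fun t => hker _ ((hV'm _).1 (ψ t).2)) hc ?_ ht₀ (hS3 y hy2)
  show ((ψ 0 : V') : V) = c • (y : V)
  rw [hψc]
  rfl

end Pool.Agent.V7H85.QS
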