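import Pool.Agent.V7H85.QS.Small

/-!
# Pairs of quadratic equations
-/

set_option autoImplicit false
set_option linter.unusedSectionVars false

namespace Pool.Agent.V7H85.QS

open Module LinearMap Pool.Agent.TH783.CE

variable {K : Type} [Field K] [CharZero K] {O : Set K}

/-- **Pairs of quadratic equations.** If the quotient of two linear functions has values in a flat
set at the common zeros of two quadratic forms then the set of these values is thin. -/
theorem pair_thin (hO : Flat O) (n : ℕ) : ∀ (V E : Type) [AddCommGroup V] [Module K V]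
    [FiniteDimensional K V] [AddCommGroup E] [Module K E] [FiniteDimensional K E]
    (B : V →ₗ[K] V →ₗ[K] E) (x₀ x₁ : V →ₗ[K] K), finrank K E = 2 → (∀ u v, B u v = B v u) →
    (∀ P, B P P = 0 → x₀ P ≠ 0 → x₁ P / x₀ P ∈ O) → finrank K V = n → Thin (DB B x₀ x₁) := by
  induction n using Nat.strong_induction_on with
  | _ n IH =>
  intro V E _ _ _ _ _ _ B x₀ x₁ hE hB h hn
  have ih : ∀ W : Submodule K V, W ≠ ⊤ → Thin (DW B x₀ x₁ W) := by
    intro W hW
    have h1 : finrank K W < n := by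
      rw [← hn]
      exact Submodule.finrank_lt (lt_top_iff_ne_top.2 hW).ne
    refine (IH _ h1 W E (B.compl₁₂ W.subtype W.subtype) (x₀ ∘ₗ W.subtype) (x₁ ∘ₗ W.subtype) hE
      (fun u v => hB u v) (fun P hP hP0 => h P hP hP0) rfl).mono ?_
    rintro t ⟨P, hPW, hP, h2, h3⟩
    exact ⟨⟨P, hPW⟩, hP, h2, h3⟩
  by_cases hind : Ind x₀ x₁
  swap
  · exact case_dep hind
  by_cases hz : ∀ l : E →ₗ[K] K, l ≠ 0 → ∃ u v, l (B u v) ≠ 0
  swap
  · push Not at hz
    obtain ⟨l, hl, hl0⟩ := hz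
    exact case_zero hE hB hO h hl hl0
  by_cases hrad : ∀ n : V, n ≠ 0 → ∃ v, B n v ≠ 0
  swap
  · push Not at hrad
    obtain ⟨n, hn, hn0⟩ := hrad
    exact case_rad hB hO h ih hn hn0
  by_cases hiso : ∀ l : E →ₗ[K] K, l ≠ 0 → ∀ η : V →ₗ[K] K, η ≠ 0 →
      ∃ u v, η u = 0 ∧ η v = 0 ∧ l (B u v) ≠ 0
  swap
  · push Not at hiso
    obtain ⟨l, hl, η, hη, hη0⟩ := hiso
    exact case_iso hB ih (hz l hl) hη hη0
  by_cases hsing : ∀ l : E →ₗ[K] K, ∃ n : V, n ≠ 0 ∧ ∀ v, l (B n v) = 0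
  · exact case_sing hE hB hO h ih hrad hsing
  push Not at hsing
  obtain ⟨l₀, hl₀⟩ := hsing
  have hl₀0 : l₀ ≠ 0 := by
    rintro rfl
    obtain ⟨p₀, -, a00, -⟩ := dual_vectors hind
    obtain ⟨v, hv⟩ := hl₀ p₀ (by
      rintro rfl
      rw [map_zero] at a00
      exact zero_ne_one a00)
    exact hv rfl
  obtain ⟨F, hF, hF1, hF2⟩ := finite_deg hE hl₀0 hl₀
  by_cases hd : 5 ≤ finrank K V
  · exact case_big hE hB hO h ih hd hind hz hrad hiso hF hF1 hF2
  · exact case_small hE hB hO h ih (by omega) hind hz hF hF1 hF2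

end Pool.Agent.V7H85.QS
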