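import Pool.Agent.V7H85.QS.Pair
import Pool.Agent.TH783.CE.Low

/-!
# Pencils of quadratic forms
-/

set_option autoImplicit false
set_option linter.unusedSectionVars false

namespace Pool.Agent.V7H85.QS

open Module LinearMap Pool.Agent.TH783.CE

section rank

variable {K : Type} [Field K]
variable {L W E : Type} [AddCommGroup L] [Module K L] [AddCommGroup W] [Module K W]
  [AddCommGroup E] [Module K E]

/-- lower semicontinuity of the rank, for families of linear maps -/
lemma LO.rank' [FiniteDimensional K E] (B : L →ₗ[K] W →ₗ[K] E) (r : ℕ) :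
    LO (K := K) fun y => r ≤ finrank K (range (B y)) := fun y hy v => by
  obtain ⟨s, hs⟩ := (B y).rangeRestrict.exists_rightInverse_of_surjective
    (LinearMap.range_rangeRestrict (B y))
  have h1 : Function.Injective (B y ∘ₗ s) := by
    intro a b hab
    have h2 : (B y).rangeRestrict (s a) = (B y).rangeRestrict (s b) := Subtype.ext hab
    have h3 := LinearMap.congr_fun hs a
    have h4 := LinearMap.congr_fun hs b
    simp only [LinearMap.comp_apply, LinearMap.id_apply] at h3 h4
    rw [← h3, h2, h4]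
  refine (fin_inj (B y ∘ₗ s) (B v ∘ₗ s) h1).subset ?_
  intro t ht hc
  apply ht
  refine hy.trans (le_rank (B (y + t • v)) s ?_)
  have h5 : B (y + t • v) ∘ₗ s = B y ∘ₗ s + t • (B v ∘ₗ s) := by
    rw [map_add, map_smul, LinearMap.add_comp, LinearMap.smul_comp]
  rw [h5]
  exact hc

/-- a rank that cannot be increased, for families of linear maps -/
lemma max_rank' [Infinite K] [FiniteDimensional K E] (B : L →ₗ[K] W →ₗ[K] E)
    {y : L} (hy : ∀ z, finrank K (range (B z)) ≤ finrank K (range (B y)))
    (l : E →ₗ[K] K) (hl : ∀ x, l (B y x) = 0) (v : L) (n : W) (hn : B y n = 0) :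
    l (B v n) = 0 := by
  by_contra hne
  obtain ⟨s, hs⟩ := (B y).rangeRestrict.exists_rightInverse_of_surjective
    (LinearMap.range_rangeRestrict (B y))
  have hs' : ∀ a : range (B y), B y (s a) = a := fun a =>
    congrArg Subtype.val (LinearMap.congr_fun hs a)
  set g : (range (B y) × K) →ₗ[K] W := s.coprod (LinearMap.toSpanSingleton K W n) with hg
  have hgv : ∀ p, g p = s p.1 + p.2 • n := fun p => by
    rw [hg, LinearMap.coprod_apply, LinearMap.toSpanSingleton_apply]
  set G : (range (B y) × K) →ₗ[K] (E × K) := (B y ∘ₗ g).prod (l ∘ₗ B v ∘ₗ g) with hG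
  set A : (range (B y) × K) →ₗ[K] (E × K) := (B v ∘ₗ g).prod 0 with hA
  have hGi : Function.Injective G := by
    rw [injective_iff_map_eq_zero]
    rintro ⟨w, c⟩ h
    have h1 : B y (s w + c • n) = 0 := by
      have := congrArg Prod.fst h
      simpa [hG, hgv] using this
    have h2 : l (B v (s w + c • n)) = 0 := by
      have := congrArg Prod.snd h
      simpa [hG, hgv] using this
    rw [map_add, map_smul, hn, smul_zero, add_zero, hs'] at h1
    have h3 : w = 0 := Subtype.ext h1
    rw [h3, map_zero, zero_add, map_smul, map_smul, smul_eq_mul] at h2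
    rw [h3, (mul_eq_zero.1 h2).resolve_right hne]
    rfl
  obtain ⟨t, ht⟩ := ((fin_inj G A hGi).union (Set.finite_singleton (0 : K))).infinite_compl.nonempty
  rw [Set.mem_compl_iff, Set.mem_union, not_or] at ht
  obtain ⟨ht1, ht2⟩ := ht
  have ht1' : Function.Injective (G + t • A : (range (B y) × K) →ₗ[K] (E × K)) :=
    by_contra fun hc => ht1 hc
  have ht0 : t ≠ 0 := fun h => ht2 (by simp [h])
  have h4 : Function.Injective (B (y + t • v) ∘ₗ g) := by
    rw [injective_iff_map_eq_zero]
    intro p hp
    have h5 : B y (g p) + t • B v (g p) = 0 := by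
      rw [LinearMap.comp_apply, map_add, map_smul, LinearMap.add_apply, LinearMap.smul_apply] at hp
      exact hp
    have h6 : l (B v (g p)) = 0 := by
      have h7 := congrArg l h5
      rw [map_add, map_smul, hl, zero_add, map_zero, smul_eq_mul] at h7
      exact (mul_eq_zero.1 h7).resolve_left ht0
    refine (injective_iff_map_eq_zero _).1 ht1' p ?_
    rw [LinearMap.add_apply, LinearMap.smul_apply]
    refine Prod.ext ?_ ?_
    · simpa [hG, hA] using h5
    · simpa [hG, hA] using h6
  have h8 := le_rank (B (y + t • v)) g h4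
  rw [Module.finrank_prod, Module.finrank_self] at h8
  have h9 := hy (y + t • v)
  omega

end rank

section plane

variable {K : Type} [Field K] {E : Type} [AddCommGroup E] [Module K E] [FiniteDimensional K E]

/-- coordinates of a plane -/
lemma dual_pair (hE : finrank K E = 2) {l : E →ₗ[K] K} (hl : l ≠ 0) :
    ∃ (l' : E →ₗ[K] K) (e e' : E), l e = 1 ∧ l e' = 0 ∧ l' e = 0 ∧ l' e' = 1 ∧
      (∀ x, x = l x • e + l' x • e') := by
  obtain ⟨u, hu⟩ : ∃ u, l u ≠ 0 := by
    by_contra hcon
    push Not at hcon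
    exact hl (LinearMap.ext hcon)
  have h1 := rank_add_ker l
  have h2 : finrank K (range l) = 1 := by
    have : range l = ⊤ := LinearMap.range_eq_top.2 (LinearMap.surjective hl)
    rw [this, finrank_top, finrank_self]
  have h3 : finrank K (ker l) = 1 := by omega
  obtain ⟨⟨e', he'⟩, he0, hspan⟩ := finrank_eq_one_iff'.1 h3
  have he0' : e' ≠ 0 := fun h => he0 (Subtype.ext h)
  obtain ⟨f, hf⟩ := exists_dual (K := K) he0'
  have hle' : l e' = 0 := he'
  have hle : l ((l u)⁻¹ • u) = 1 := by
    rw [map_smul, smul_eq_mul, inv_mul_cancel₀ hu]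
  refine ⟨f - f ((l u)⁻¹ • u) • l, (l u)⁻¹ • u, e', hle, hle', ?_, ?_, ?_⟩
  · rw [LinearMap.sub_apply, LinearMap.smul_apply, hle, smul_eq_mul, mul_one, sub_self]
  · rw [LinearMap.sub_apply, LinearMap.smul_apply, hle', hf, smul_zero, sub_zero]
  · intro x
    have h4 : x - l x • ((l u)⁻¹ • u) ∈ ker l := by
      rw [LinearMap.mem_ker, map_sub, map_smul, hle, smul_eq_mul, mul_one, sub_self]
    obtain ⟨c, hc⟩ := hspan ⟨_, h4⟩
    have h5 : c • e' = x - l x • ((l u)⁻¹ • u) := congrArg Subtype.val hc
    obtain ⟨e, he⟩ : ∃ e, e = (l u)⁻¹ • u := ⟨_, rfl⟩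
    rw [← he] at h5 hle ⊢
    have h6 : x = l x • e + c • e' := by
      rw [h5]
      abel
    have h7 : (f - f e • l) x = c := by
      rw [LinearMap.sub_apply, LinearMap.smul_apply]
      conv_lhs => rw [h6]
      simp only [map_add, map_smul, hle, hle', hf, smul_eq_mul, mul_one, mul_zero, add_zero]
      ring
    rw [h7]
    exact h6

/-- two independent functionals on a plane -/
lemma sep (hE : finrank K E = 2) {l μ : E →ₗ[K] K} (hl : l ≠ 0) {e : E}
    (h1 : l e = 0) (h2 : μ e ≠ 0) {x : E} (h3 : l x = 0) (h4 : μ x = 0) : x = 0 := by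
  obtain ⟨l', u, u', a1, a2, a3, a4, a5⟩ := dual_pair hE hl
  have e1 := a5 e
  have e2 := a5 x
  rw [h1, zero_smul, zero_add] at e1
  rw [h3, zero_smul, zero_add] at e2
  have e3 : μ u' ≠ 0 := by
    intro h
    rw [e1, map_smul, h, smul_zero] at h2
    exact h2 rfl
  rw [e2, map_smul, smul_eq_mul] at h4
  rw [e2, (mul_eq_zero.1 h4).resolve_right e3, zero_smul]

/-- a functional is proportional to a given one or independent of it -/
lemma prop_or (hE : finrank K E = 2) {l μ : E →ₗ[K] K} (hl : l ≠ 0) :
    (∀ x, l x = 0 → μ x = 0 → x = 0) ∨ ∃ c : K, μ = c • l := by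
  obtain ⟨l', u, u', a1, a2, a3, a4, a5⟩ := dual_pair hE hl
  by_cases h : μ u' = 0
  · right
    refine ⟨μ u, ?_⟩
    ext x
    conv_lhs => rw [a5 x]
    rw [map_add, map_smul, map_smul, h, smul_zero, add_zero, LinearMap.smul_apply, smul_eq_mul,
      smul_eq_mul, mul_comm]
  · left
    intro x h1 h2
    have e2 := a5 x
    rw [h1, zero_smul, zero_add] at e2
    rw [e2, map_smul, smul_eq_mul] at h2
    rw [e2, (mul_eq_zero.1 h2).resolve_right h, zero_smul]

end plane

end Pool.Agent.V7H85.QS
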