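import Mathlib

/-!
# Polynomial functions and open conditions along lines
-/

set_option autoImplicit false
set_option linter.unusedSectionVars false

namespace Pool.Agent.V7H85.QS

open Module Polynomial

variable {K : Type} [Field K]

/-- polynomial functions of one variable -/
def PF (f : K → K) : Prop := ∃ p : K[X], ∀ t, f t = p.eval t

/-- vector valued polynomial functions of one variable -/
def PV {V : Type} [AddCommGroup V] [Module K V] (φ : K → V) : Prop :=
  ∀ l : V →ₗ[K] K, PF fun t => l (φ t)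

lemma PF.const (c : K) : PF fun _ : K => c := ⟨C c, fun t => by simp⟩

lemma PF.id : PF fun t : K => t := ⟨X, fun t => by simp⟩

lemma PF.add {f g : K → K} (hf : PF f) (hg : PF g) : PF fun t => f t + g t := by
  obtain ⟨p, hp⟩ := hf
  obtain ⟨q, hq⟩ := hg
  exact ⟨p + q, fun t => by simp only [eval_add, hp, hq]⟩

lemma PF.sub {f g : K → K} (hf : PF f) (hg : PF g) : PF fun t => f t - g t := by
  obtain ⟨p, hp⟩ := hf
  obtain ⟨q, hq⟩ := hg
  exact ⟨p - q, fun t => by simp only [eval_sub, hp, hq]⟩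

lemma PF.mul {f g : K → K} (hf : PF f) (hg : PF g) : PF fun t => f t * g t := by
  obtain ⟨p, hp⟩ := hf
  obtain ⟨q, hq⟩ := hg
  exact ⟨p * q, fun t => by simp only [eval_mul, hp, hq]⟩

lemma PF.sum {ι : Type} (s : Finset ι) {f : ι → K → K} (hf : ∀ i ∈ s, PF (f i)) :
    PF fun t => ∑ i ∈ s, f i t := by
  classical
  induction s using Finset.induction_on with
  | empty => simpa using PF.const (K := K) 0
  | insert a s ha ih =>
    simp only [Finset.sum_insert ha]
    exact (hf a (Finset.mem_insert_self _ _)).add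
      (ih fun i hi => hf i (Finset.mem_insert_of_mem hi))

/-- a polynomial function which is not identically zero has finitely many zeros -/
lemma PF.fin {f : K → K} (hf : PF f) (h : ∃ t, f t ≠ 0) : {t : K | f t = 0}.Finite := by
  obtain ⟨p, hp⟩ := hf
  obtain ⟨t, ht⟩ := h
  have h0 : p ≠ 0 := by
    rintro rfl
    exact ht (by rw [hp, eval_zero])
  refine (p.rootSet_finite K).subset ?_
  intro s hs
  rw [mem_rootSet]
  refine ⟨h0, ?_⟩
  have h1 : f s = 0 := hs
  rw [hp] at h1
  simpa [Polynomial.aeval_def] using h1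

lemma PF.both [Infinite K] {f g : K → K} (hf : PF f) (hg : PF g) (h1 : ∃ t, f t ≠ 0)
    (h2 : ∃ t, g t ≠ 0) : ∃ t, f t ≠ 0 ∧ g t ≠ 0 := by
  obtain ⟨t, ht⟩ := ((hf.fin h1).union (hg.fin h2)).infinite_compl.nonempty
  rw [Set.mem_compl_iff, Set.mem_union, not_or] at ht
  exact ⟨t, ht.1, ht.2⟩

section

variable {V W E : Type} [AddCommGroup V] [Module K V] [AddCommGroup W] [Module K W]
  [AddCommGroup E] [Module K E]

lemma PV.lin {φ : K → V} (h : PV φ) (g : V →ₗ[K] W) : PV fun t => g (φ t) := fun l =>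
  h (l ∘ₗ g)

lemma PV.toPF {φ : K → V} (h : PV φ) (l : V →ₗ[K] K) : PF fun t => l (φ t) := h l

lemma PV.const (v : V) : PV fun _ : K => v := fun l => PF.const (l v)

lemma PV.add {φ ψ : K → V} (h : PV φ) (h' : PV ψ) : PV fun t => φ t + ψ t := fun l => by
  simp only [map_add]
  exact (h l).add (h' l)

lemma PV.sub {φ ψ : K → V} (h : PV φ) (h' : PV ψ) : PV fun t => φ t - ψ t := fun l => by
  simp only [map_sub]
  exact (h l).sub (h' l)

lemma PV.smul {f : K → K} {φ : K → V} (h : PF f) (h' : PV φ) : PV fun t => f t • φ t :=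
  fun l => by
    simp only [map_smul, smul_eq_mul]
    exact h.mul (h' l)

lemma PV.bil [FiniteDimensional K V] (B : V →ₗ[K] W →ₗ[K] E) {φ : K → V} {ψ : K → W}
    (h : PV φ) (h' : PV ψ) : PV fun t => B (φ t) (ψ t) := fun l => by
  have h1 : (fun t => l (B (φ t) (ψ t))) = fun t => ∑ i, (finBasis K V).coord i (φ t) *
      (l ∘ₗ B (finBasis K V i)) (ψ t) := by
    funext t
    conv_lhs => rw [← (finBasis K V).sum_repr (φ t)]
    rw [map_sum, LinearMap.sum_apply, map_sum]
    refine Finset.sum_congr rfl fun i _ => ?_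
    rw [map_smul, LinearMap.smul_apply, map_smul, smul_eq_mul]
    rfl
  show PF fun t => l (B (φ t) (ψ t))
  rw [h1]
  exact PF.sum _ fun i _ => (h _).mul (h' _)

/-- a condition which holds on each line that contains a solution, up to finitely many points -/
def LO (S : V → Prop) : Prop := ∀ y, S y → ∀ v, {t : K | ¬ S (y + t • v)}.Finite

lemma LO.both [Infinite K] {S S' : V → Prop} (h : LO (K := K) S) (h' : LO (K := K) S')
    (h1 : ∃ y, S y) (h2 : ∃ y, S' y) : ∃ y, S y ∧ S' y := by
  obtain ⟨y, hy⟩ := h1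
  obtain ⟨z, hz⟩ := h2
  have e1 := h y hy (z - y)
  have e2 := h' z hz (y - z)
  have e3 : ((fun t : K => 1 - t) '' {t : K | ¬ S' (z + t • (y - z))}).Finite := e2.image _
  obtain ⟨t, ht⟩ := (e1.union e3).infinite_compl.nonempty
  rw [Set.mem_compl_iff, Set.mem_union, not_or] at ht
  refine ⟨y + t • (z - y), by_contra fun hc => ht.1 hc, by_contra fun hc => ht.2 ?_⟩
  refine ⟨1 - t, ?_, by ring⟩
  show ¬ S' (z + (1 - t) • (y - z))
  have e : z + (1 - t) • (y - z) = y + t • (z - y) := by
    module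
  rwa [e]

lemma LO.and {S S' : V → Prop} (h : LO (K := K) S) (h' : LO (K := K) S') :
    LO (K := K) fun y => S y ∧ S' y := fun y hy v => by
  refine ((h y hy.1 v).union (h' y hy.2 v)).subset ?_
  intro t ht
  by_cases h1 : S (y + t • v)
  · right
    intro h2
    exact ht ⟨h1, h2⟩
  · left
    exact h1

lemma LO.lin (l : V →ₗ[K] K) : LO (K := K) fun y => l y ≠ 0 := fun y hy v => by
  have h1 : PF fun t : K => l (y + t • v) := by
    simp only [map_add, map_smul, smul_eq_mul]
    exact (PF.const _).add (PF.id.mul (PF.const _))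
  refine (h1.fin ⟨0, by simpa using hy⟩).subset ?_
  intro t ht
  simpa using ht

lemma LO.quad (b : V →ₗ[K] V →ₗ[K] K) : LO (K := K) fun y => b y y ≠ 0 := fun y hy v => by
  have h1 : PF fun t : K => b (y + t • v) (y + t • v) := by
    simp only [map_add, map_smul, LinearMap.add_apply, LinearMap.smul_apply, smul_eq_mul]
    exact ((PF.const _).add (PF.id.mul (PF.const _))).add
      (PF.id.mul ((PF.const _).add (PF.id.mul (PF.const _))))
  refine (h1.fin ⟨0, by simpa using hy⟩).subset ?_
  intro t ht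
  simpa using ht

lemma exists_dual {e : E} (he : e ≠ 0) : ∃ l : E →ₗ[K] K, l e = 1 := by
  obtain ⟨f, hf⟩ := LinearMap.exists_leftInverse_of_injective (LinearMap.toSpanSingleton K E e)
    (LinearMap.ker_toSpanSingleton K he)
  refine ⟨f, ?_⟩
  have h := LinearMap.congr_fun hf 1
  simpa using h

lemma LO.quadE (B : V →ₗ[K] V →ₗ[K] E) : LO (K := K) fun y => B y y ≠ 0 := fun y hy v => by
  obtain ⟨l, hl⟩ := exists_dual (K := K) hy
  have h1 := LO.quad (B.compr₂ l) y (by
    show l (B y y) ≠ 0
    rw [hl]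
    exact one_ne_zero) v
  refine h1.subset ?_
  intro t ht
  have h2 : B (y + t • v) (y + t • v) = 0 := by simpa using ht
  show ¬ l (B (y + t • v) (y + t • v)) ≠ 0
  rw [h2, map_zero]
  simp

end

end Pool.Agent.V7H85.QS
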