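import Pool.Agent.V7H85.QS.Poly

/-!
# Ranks of bilinear maps along lines and on subspaces
-/

set_option autoImplicit false
set_option linter.unusedSectionVars false

namespace Pool.Agent.V7H85.QS

open Module LinearMap

variable {K : Type} [Field K]
variable {V W E X Y : Type} [AddCommGroup V] [Module K V] [AddCommGroup W] [Module K W]
  [AddCommGroup E] [Module K E] [AddCommGroup X] [Module K X] [AddCommGroup Y] [Module K Y]

lemma fin_inj_id [FiniteDimensional K X] (A : X →ₗ[K] X) :
    {t : K | ¬ Function.Injective (LinearMap.id + t • A : X →ₗ[K] X)}.Finite := by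
  have h1 : {μ : K | Module.End.HasEigenvalue (A : Module.End K X) μ}.Finite :=
    Module.End.finite_hasEigenvalue (f := (A : Module.End K X))
  refine (h1.image fun μ => -μ⁻¹).subset ?_
  intro t ht
  have h2 : ¬ ∀ w : X, (LinearMap.id + t • A : X →ₗ[K] X) w = 0 → w = 0 := by
    intro hc
    exact ht ((injective_iff_map_eq_zero _).2 hc)
  push Not at h2
  obtain ⟨w, hw, hw0⟩ := h2
  have h3 : w + t • A w = 0 := hw
  have ht0 : t ≠ 0 := by
    rintro rfl
    rw [zero_smul, add_zero] at h3
    exact hw0 h3
  refine ⟨-t⁻¹, ?_, ?_⟩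
  · refine Module.End.hasEigenvalue_of_hasEigenvector (x := w) ⟨?_, hw0⟩
    rw [Module.End.mem_eigenspace_iff]
    have h4 : t • A w = -w := by
      rw [eq_neg_iff_add_eq_zero, add_comm]
      exact h3
    have h5 : A w = t⁻¹ • (t • A w) := by
      rw [smul_smul, inv_mul_cancel₀ ht0, one_smul]
    rw [h5, h4, smul_neg, neg_smul]
  · simp

lemma fin_inj [FiniteDimensional K X] (G A : X →ₗ[K] Y) (hG : Function.Injective G) :
    {t : K | ¬ Function.Injective (G + t • A : X →ₗ[K] Y)}.Finite := by
  obtain ⟨L, hL⟩ := LinearMap.exists_leftInverse_of_injective G (LinearMap.ker_eq_bot.2 hG)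
  refine (fin_inj_id (L ∘ₗ A)).subset ?_
  intro t ht hc
  apply ht
  have h1 : (LinearMap.id + t • (L ∘ₗ A) : X →ₗ[K] X) = L ∘ₗ (G + t • A) := by
    rw [LinearMap.comp_add, hL, LinearMap.comp_smul]
  rw [h1] at hc
  exact Function.Injective.of_comp (f := L) (by simpa using hc)

/-- the rank is at least the dimension of the source of an injective map into the source -/
lemma le_rank [FiniteDimensional K E] (f : W →ₗ[K] E) (g : X →ₗ[K] W)
    (h : Function.Injective (f ∘ₗ g)) : finrank K X ≤ finrank K (range f) := by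
  have h1 : finrank K X = finrank K (range (f ∘ₗ g)) := (LinearMap.finrank_range_of_inj h).symm
  rw [h1]
  exact Submodule.finrank_mono (LinearMap.range_comp_le_range g f)

/-- lower semicontinuity of the rank -/
lemma LO.rank [FiniteDimensional K E] (B : W →ₗ[K] W →ₗ[K] E) (r : ℕ) :
    LO (K := K) fun y => r ≤ finrank K (range (B y)) := fun y hy v => by
  obtain ⟨s, hs⟩ := (B y).rangeRestrict.exists_rightInverse_of_surjective
    (LinearMap.range_rangeRestrict (B y))
  have h1 : Function.Injective (B y ∘ₗ s) := by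
    intro a b hab
    have h2 : (B y).rangeRestrict (s a) = (B y).rangeRestrict (s b) := Subtype.ext hab
    have h3 := LinearMap.congr_fun hs a
    have h4 := LinearMap.congr_fun hs b
    simp only [LinearMap.comp_apply, LinearMap.id_apply] at h3 h4
    rw [← h3, h2, h4]
  refine (fin_inj (B y ∘ₗ s) (B v ∘ₗ s) h1).subset ?_
  intro t ht hc
  apply ht
  refine hy.trans (le_rank (B (y + t • v)) s ?_)
  have h5 : B (y + t • v) ∘ₗ s = B y ∘ₗ s + t • (B v ∘ₗ s) := by
    rw [map_add, map_smul, LinearMap.add_comp, LinearMap.smul_comp]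
  rw [h5]
  exact hc

/-- a rank that cannot be increased -/
lemma max_rank [Infinite K] [FiniteDimensional K E] (B : W →ₗ[K] W →ₗ[K] E)
    {y : W} (hy : ∀ z, finrank K (range (B z)) ≤ finrank K (range (B y)))
    (l : E →ₗ[K] K) (hl : ∀ x, l (B y x) = 0) (v n : W) (hn : B y n = 0) : l (B v n) = 0 := by
  by_contra hne
  obtain ⟨s, hs⟩ := (B y).rangeRestrict.exists_rightInverse_of_surjective
    (LinearMap.range_rangeRestrict (B y))
  have hs' : ∀ a : range (B y), B y (s a) = a := fun a =>
    congrArg Subtype.val (LinearMap.congr_fun hs a)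
  -- the map `(w, c) ↦ s w + c n`
  set g : (range (B y) × K) →ₗ[K] W := s.coprod (LinearMap.toSpanSingleton K W n) with hg
  have hgv : ∀ p, g p = s p.1 + p.2 • n := fun p => by
    rw [hg, LinearMap.coprod_apply, LinearMap.toSpanSingleton_apply]
  set G : (range (B y) × K) →ₗ[K] (E × K) := (B y ∘ₗ g).prod (l ∘ₗ B v ∘ₗ g) with hG
  set A : (range (B y) × K) →ₗ[K] (E × K) := (B v ∘ₗ g).prod 0 with hA
  have hGi : Function.Injective G := by
    rw [injective_iff_map_eq_zero]
    rintro ⟨w, c⟩ h
    have h1 : B y (s w + c • n) = 0 := by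
      have := congrArg Prod.fst h
      simpa [hG, hgv] using this
    have h2 : l (B v (s w + c • n)) = 0 := by
      have := congrArg Prod.snd h
      simpa [hG, hgv] using this
    rw [map_add, map_smul, hn, smul_zero, add_zero, hs'] at h1
    have h3 : w = 0 := Subtype.ext h1
    rw [h3, map_zero, zero_add, map_smul, map_smul, smul_eq_mul] at h2
    rw [h3, (mul_eq_zero.1 h2).resolve_right hne]
    rfl
  obtain ⟨t, ht⟩ := ((fin_inj G A hGi).union (Set.finite_singleton (0 : K))).infinite_compl.nonempty
  rw [Set.mem_compl_iff, Set.mem_union, not_or] at ht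
  obtain ⟨ht1, ht2⟩ := ht
  have ht1' : Function.Injective (G + t • A : (range (B y) × K) →ₗ[K] (E × K)) :=
    by_contra fun hc => ht1 hc
  have ht0 : t ≠ 0 := fun h => ht2 (by simp [h])
  have h4 : Function.Injective (B (y + t • v) ∘ₗ g) := by
    rw [injective_iff_map_eq_zero]
    intro p hp
    have h5 : B y (g p) + t • B v (g p) = 0 := by
      rw [LinearMap.comp_apply, map_add, map_smul, LinearMap.add_apply, LinearMap.smul_apply] at hp
      exact hp
    have h6 : l (B v (g p)) = 0 := by
      have h7 := congrArg l h5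
      rw [map_add, map_smul, hl, zero_add, map_zero, smul_eq_mul] at h7
      exact (mul_eq_zero.1 h7).resolve_left ht0
    refine (injective_iff_map_eq_zero _).1 ht1' p ?_
    rw [LinearMap.add_apply, LinearMap.smul_apply]
    refine Prod.ext ?_ ?_
    · simpa [hG, hA] using h5
    · simpa [hG, hA] using h6
  have h8 := le_rank (B (y + t • v)) g h4
  rw [Module.finrank_prod, Module.finrank_self] at h8
  have h9 := hy (y + t • v)
  omega

lemma rank_add_ker [FiniteDimensional K W] (f : W →ₗ[K] E) :
    finrank K (range f) + finrank K (ker f) = finrank K W :=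
  LinearMap.finrank_range_add_finrank_ker f

/-- a symmetric bilinear map such that all forms have large rank is surjective in one variable,
for a suitable value of the other one -/
lemma exists_surj [Infinite K] [FiniteDimensional K W] [FiniteDimensional K E]
    (B : W →ₗ[K] W →ₗ[K] E) (hB : ∀ u v, B u v = B v u)
    (hr : ∀ l : E →ₗ[K] K, l ≠ 0 → finrank K E ≤ finrank K (range (B.compr₂ l)) + 1)
    (h0 : ∃ y, B y y ≠ 0) : ∃ y, finrank K E ≤ finrank K (range (B y)) := by
  classical
  -- a maximal rank
  obtain ⟨r, hr1, hr2⟩ : ∃ r, (∃ y, r ≤ finrank K (range (B y))) ∧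
      ∀ z, finrank K (range (B z)) ≤ r := by
    have hb : ∀ z, finrank K (range (B z)) ≤ finrank K E := fun z => Submodule.finrank_le _
    have hex : ∃ r, ∀ z, finrank K (range (B z)) ≤ r := ⟨_, hb⟩
    refine ⟨Nat.find hex, ?_, Nat.find_spec hex⟩
    by_contra hcon
    push Not at hcon
    rcases Nat.eq_zero_or_pos (Nat.find hex) with h | h
    · have := hcon 0
      omega
    · exact Nat.find_min hex (m := Nat.find hex - 1) (by omega) fun z => by
        have := hcon z
        omega
  obtain ⟨y, hy1, hy2⟩ := LO.both (LO.rank B r) (LO.quadE B) hr1 h0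
  refine ⟨y, ?_⟩
  by_contra hlt
  push Not at hlt
  have hne : range (B y) ≠ ⊤ := by
    intro h
    rw [h, finrank_top] at hlt
    exact lt_irrefl _ hlt
  obtain ⟨l, hl0, hl⟩ := Submodule.exists_dual_map_eq_bot_of_lt_top (lt_top_iff_ne_top.2 hne)
    inferInstance
  have hl' : ∀ x, l (B y x) = 0 := fun x => by
    have h1 : l (B y x) ∈ (range (B y)).map l := Submodule.mem_map_of_mem ⟨x, rfl⟩
    rw [hl] at h1
    exact (Submodule.mem_bot K).1 h1
  have hmax := max_rank B (y := y) (fun z => (hr2 z).trans hy1) l hl'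
  -- the kernel of the form is larger than the kernel of `B y`
  have h2 : ker (B y) < ker (B.compr₂ l) := by
    refine lt_of_le_of_ne ?_ ?_
    · intro n hn
      rw [LinearMap.mem_ker] at hn ⊢
      ext v
      show l (B n v) = 0
      rw [hB]
      exact hmax v n hn
    · intro h
      have h3 : y ∈ ker (B.compr₂ l) := by
        rw [LinearMap.mem_ker]
        ext v
        exact hl' v
      rw [← h, LinearMap.mem_ker] at h3
      exact hy2 h3
  have h4 := Submodule.finrank_lt_finrank_of_lt h2
  have h5 := rank_add_ker (B y)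
  have h6 := rank_add_ker (B.compr₂ l)
  have h7 := hr l hl0
  omega

lemma rank_comp [FiniteDimensional K X] [FiniteDimensional K Y] (f : X →ₗ[K] Y)
    (ρ : Y →ₗ[K] E) : finrank K (range f) ≤ finrank K (range (ρ ∘ₗ f)) + finrank K (ker ρ) := by
  have e1 := rank_add_ker f
  have e2 := rank_add_ker (ρ ∘ₗ f)
  set g : ker (ρ ∘ₗ f) →ₗ[K] ker ρ := (f ∘ₗ (ker (ρ ∘ₗ f)).subtype).codRestrict (ker ρ)
    (fun x => x.2) with hg
  have e3 := rank_add_ker g
  have e4 : finrank K (range g) ≤ finrank K (ker ρ) := Submodule.finrank_le _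
  have e5 : finrank K (ker g) ≤ finrank K (ker f) := by
    refine LinearMap.finrank_le_finrank_of_injective
      (f := (((ker (ρ ∘ₗ f)).subtype ∘ₗ (ker g).subtype).codRestrict (ker f) fun x => ?_)) ?_
    · exact congrArg Subtype.val x.2
    · intro x y hxy
      have h3 := congrArg Subtype.val hxy
      exact Subtype.ext (Subtype.ext h3)
  omega

/-- the rank of a bilinear form on a subspace -/
lemma rank_restrict [FiniteDimensional K V] (b : V →ₗ[K] V →ₗ[K] K) (S : Submodule K V) (c : ℕ)
    (hS : finrank K V ≤ finrank K S + c) :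
    finrank K (range b) ≤ finrank K (range (b.compl₁₂ S.subtype S.subtype)) + 2 * c := by
  -- restriction of the first variable
  have h1 : finrank K (range b) ≤ finrank K (range (b ∘ₗ S.subtype)) + c := by
    have e1 := rank_add_ker b
    have e2 := rank_add_ker (b ∘ₗ S.subtype)
    have e3 : finrank K (ker (b ∘ₗ S.subtype)) ≤ finrank K (ker b) := by
      refine LinearMap.finrank_le_finrank_of_injective
        (f := ((S.subtype ∘ₗ (ker (b ∘ₗ S.subtype)).subtype).codRestrict (ker b) fun x => x.2)) ?_
      intro x y hxy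
      have h3 := congrArg Subtype.val hxy
      exact Subtype.ext (Subtype.ext h3)
    omega
  -- restriction of the second variable
  set ρ : (V →ₗ[K] K) →ₗ[K] (S →ₗ[K] K) := LinearMap.lcomp K K S.subtype with hρ
  have hρker : finrank K (ker ρ) ≤ c := by
    have e1 := rank_add_ker ρ
    have e2 : Function.Surjective ρ := fun f => by
      obtain ⟨g, hg⟩ := f.exists_extend
      exact ⟨g, hg⟩
    rw [LinearMap.range_eq_top.2 e2, finrank_top] at e1
    have e3 : finrank K (V →ₗ[K] K) = finrank K V := Subspace.dual_finrank_eq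
    have e4 : finrank K (S →ₗ[K] K) = finrank K S := Subspace.dual_finrank_eq
    omega
  have h2 : finrank K (range (b ∘ₗ S.subtype)) ≤
      finrank K (range (ρ ∘ₗ (b ∘ₗ S.subtype))) + c :=
    (rank_comp (b ∘ₗ S.subtype) ρ).trans (by omega)
  have h3 : ρ ∘ₗ (b ∘ₗ S.subtype) = b.compl₁₂ S.subtype S.subtype := by
    ext x y
    rfl
  rw [h3] at h2
  omega

end Pool.Agent.V7H85.QS
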