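import Pool.Agent.V7H85.QS.Cases

/-!
# Singular pencils of quadratic forms
-/

set_option autoImplicit false
set_option linter.unusedSectionVars false

namespace Pool.Agent.V7H85.QS

open Module LinearMap Pool.Agent.TH783.CE

variable {K : Type} [Field K] [CharZero K]
variable {V E : Type} [AddCommGroup V] [Module K V] [AddCommGroup E] [Module K E]

/-- the family of the forms of a system -/
def pen (B : V →ₗ[K] V →ₗ[K] E) : (E →ₗ[K] K) →ₗ[K] V →ₗ[K] (V →ₗ[K] K) where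
  toFun l := B.compr₂ l
  map_add' l l' := by ext; rfl
  map_smul' c l := by ext; rfl

lemma pen_apply (B : V →ₗ[K] V →ₗ[K] E) (l : E →ₗ[K] K) (u v : V) : pen B l u v = l (B u v) := rfl

lemma LO.linE {W : Type} [AddCommGroup W] [Module K W] (f : W →ₗ[K] E) :
    LO (K := K) fun y => f y ≠ 0 := fun y hy v => by
  obtain ⟨l, hl⟩ := exists_dual (K := K) hy
  have h1 := LO.lin (l ∘ₗ f) y (by
    show l (f y) ≠ 0
    rw [hl]
    exact one_ne_zero) v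
  refine h1.subset ?_
  intro t ht
  have h2 : f (y + t • v) = 0 := by simpa using ht
  show ¬ l (f (y + t • v)) ≠ 0
  rw [h2, map_zero]
  simp

lemma max_two [FiniteDimensional K V] [FiniteDimensional K E] (hE : finrank K E = 2)
    (B : V →ₗ[K] V →ₗ[K] E) (hB : ∀ u v, B u v = B v u) :
    ∃ l₁ l₂ : E →ₗ[K] K, (∀ x, l₁ x = 0 → l₂ x = 0 → x = 0) ∧
      (∀ n n', (∀ v, l₁ (B n v) = 0) → (∀ v, l₁ (B n' v) = 0) → B n n' = 0) ∧
      (∀ n n', (∀ v, l₂ (B n v) = 0) → (∀ v, l₂ (B n' v) = 0) → B n n' = 0) := by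
  classical
  obtain ⟨r, hr1, hr2⟩ : ∃ r, (∃ y, r ≤ finrank K (range (pen B y))) ∧
      ∀ z, finrank K (range (pen B z)) ≤ r := by
    have hb : ∀ z, finrank K (range (pen B z)) ≤ finrank K (V →ₗ[K] K) :=
      fun z => Submodule.finrank_le _
    have hex : ∃ r, ∀ z, finrank K (range (pen B z)) ≤ r := ⟨_, hb⟩
    refine ⟨Nat.find hex, ?_, Nat.find_spec hex⟩
    by_contra hcon
    push Not at hcon
    rcases Nat.eq_zero_or_pos (Nat.find hex) with h | h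
    · have := hcon 0
      omega
    · exact Nat.find_min hex (m := Nat.find hex - 1) (by omega) fun z => by
        have := hcon z
        omega
  have hmax : ∀ l : E →ₗ[K] K, r ≤ finrank K (range (pen B l)) → ∀ n n', (∀ v, l (B n v) = 0) →
      (∀ v, l (B n' v) = 0) → B n n' = 0 := by
    intro l hl n n' hn hn'
    by_contra hne
    obtain ⟨l', hl'⟩ := exists_dual (K := K) hne
    have h1 := max_rank' (pen B) (y := l) (fun z => (hr2 z).trans hl)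
      (LinearMap.applyₗ n') (fun x => by
        show l (B x n') = 0
        rw [hB]
        exact hn' x) l' n (by
        ext v
        exact hn v)
    have h2 : l' (B n n') = 0 := h1
    rw [hl'] at h2
    exact one_ne_zero h2
  have : Nontrivial E := Module.nontrivial_of_finrank_pos (R := K) (by omega)
  obtain ⟨e, he⟩ := exists_ne (0 : E)
  obtain ⟨l, hl⟩ := exists_dual (K := K) he
  obtain ⟨l₁, h1, h2⟩ := LO.both (LO.rank' (pen B) r) (LO.lin (LinearMap.applyₗ e)) hr1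
    ⟨l, by rw [LinearMap.applyₗ_apply_apply, hl]; exact one_ne_zero⟩
  have hl₁ : l₁ ≠ 0 := by
    rintro rfl
    exact h2 rfl
  obtain ⟨l', u, u', a1, a2, a3, a4, a5⟩ := dual_pair hE hl₁
  obtain ⟨l₂, h3, h4⟩ := LO.both (LO.rank' (pen B) r) (LO.lin (LinearMap.applyₗ u')) hr1
    ⟨l', by rw [LinearMap.applyₗ_apply_apply, a4]; exact one_ne_zero⟩
  exact ⟨l₁, l₂, fun x hx hx' => sep hE hl₁ a2 h4 hx hx', hmax l₁ h1, hmax l₂ h3⟩

/-- the vectors orthogonal to a subspace -/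
def orth (B : V →ₗ[K] V →ₗ[K] E) (N : Submodule K V) : Submodule K V :=
  ker ((LinearMap.lcomp K E N.subtype) ∘ₗ B)

lemma mem_orth (B : V →ₗ[K] V →ₗ[K] E) (N : Submodule K V) (x : V) :
    x ∈ orth B N ↔ ∀ n ∈ N, B x n = 0 := by
  unfold orth
  rw [LinearMap.mem_ker]
  constructor
  · intro h n hn
    exact LinearMap.congr_fun h ⟨n, hn⟩
  · intro h
    ext n
    exact h n n.2

lemma orth_ne_top {B : V →ₗ[K] V →ₗ[K] E} (hB : ∀ u v, B u v = B v u) {N : Submodule K V} {n : V}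
    (hn : n ∈ N) (hn0 : ∃ v, B n v ≠ 0) : orth B N ≠ ⊤ := by
  intro h
  obtain ⟨v, hv⟩ := hn0
  have h1 : v ∈ orth B N := by
    rw [h]
    exact Submodule.mem_top
  rw [mem_orth] at h1
  rw [hB] at hv
  exact hv (h1 n hn)

variable {O : Set K} {B : V →ₗ[K] V →ₗ[K] E} {x₀ x₁ : V →ₗ[K] K}

/-- singular pencils -/
theorem case_sing [FiniteDimensional K V] [FiniteDimensional K E] (hE : finrank K E = 2)
    (hB : ∀ u v, B u v = B v u) (hO : Flat O) (h : ∀ P, B P P = 0 → x₀ P ≠ 0 → x₁ P / x₀ P ∈ O)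
    (ih : ∀ W : Submodule K V, W ≠ ⊤ → Thin (DW B x₀ x₁ W))
    (hrad : ∀ n : V, n ≠ 0 → ∃ v, B n v ≠ 0)
    (hsing : ∀ l : E →ₗ[K] K, ∃ n : V, n ≠ 0 ∧ ∀ v, l (B n v) = 0) : Thin (DB B x₀ x₁) := by
  obtain ⟨l₁, l₂, hsep, hm1, hm2⟩ := max_two hE B hB
  obtain ⟨N₁, hN₁⟩ : ∃ N : Submodule K V, N = ker (B.compr₂ l₁) := ⟨_, rfl⟩
  obtain ⟨N₂, hN₂⟩ : ∃ N : Submodule K V, N = ker (B.compr₂ l₂) := ⟨_, rfl⟩
  have hN₁m : ∀ n, n ∈ N₁ ↔ ∀ v, l₁ (B n v) = 0 := fun n => by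
    rw [hN₁, LinearMap.mem_ker]
    exact ⟨fun h v => LinearMap.congr_fun h v, fun h => LinearMap.ext h⟩
  have hN₂m : ∀ n, n ∈ N₂ ↔ ∀ v, l₂ (B n v) = 0 := fun n => by
    rw [hN₂, LinearMap.mem_ker]
    exact ⟨fun h v => LinearMap.congr_fun h v, fun h => LinearMap.ext h⟩
  have hZ₁ : orth B N₁ ≠ ⊤ := by
    obtain ⟨n, hn, hn'⟩ := hsing l₁
    exact orth_ne_top hB ((hN₁m n).2 hn') (hrad n hn)
  have hZ₂ : orth B N₂ ≠ ⊤ := by
    obtain ⟨n, hn, hn'⟩ := hsing l₂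
    exact orth_ne_top hB ((hN₂m n).2 hn') (hrad n hn)
  have key : ∀ P Q, B P P = 0 → x₀ P ≠ 0 → P ∉ orth B N₁ → P ∉ orth B N₂ →
      B Q Q = 0 → x₀ Q ≠ 0 → Q ∉ orth B N₁ → Q ∉ orth B N₂ →
      ∃ c : K, x₁ P = c * x₀ P ∧ x₁ Q = c * x₀ Q := by
    intro P Q hP hP0 hP1 hP2 hQ hQ0 hQ1 hQ2
    rw [mem_orth] at hP1 hP2 hQ1 hQ2
    push Not at hP1 hP2 hQ1 hQ2
    obtain ⟨u₁, hu₁, hu₁'⟩ := hP1
    obtain ⟨u₂, hu₂, hu₂'⟩ := hP2
    obtain ⟨v₁, hv₁, hv₁'⟩ := hQ1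
    obtain ⟨v₂, hv₂, hv₂'⟩ := hQ2
    obtain ⟨n₁, hn1, hn1'⟩ := LO.both (LO.linE (B P ∘ₗ N₁.subtype)) (LO.linE (B Q ∘ₗ N₁.subtype))
      ⟨⟨u₁, hu₁⟩, hu₁'⟩ ⟨⟨v₁, hv₁⟩, hv₁'⟩
    obtain ⟨n₂, hn2, hn2'⟩ := LO.both (LO.linE (B P ∘ₗ N₂.subtype)) (LO.linE (B Q ∘ₗ N₂.subtype))
      ⟨⟨u₂, hu₂⟩, hu₂'⟩ ⟨⟨v₂, hv₂⟩, hv₂'⟩
    have hn1k : ∀ v, l₁ (B n₁ v) = 0 := (hN₁m n₁).1 n₁.2
    have hn2k : ∀ v, l₂ (B n₂ v) = 0 := (hN₂m n₂).1 n₂.2
    obtain ⟨w₁, hw₁⟩ : ∃ w : V, w = n₁ := ⟨_, rfl⟩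
    obtain ⟨w₂, hw₂⟩ : ∃ w : V, w = n₂ := ⟨_, rfl⟩
    have hn1p : B P w₁ ≠ 0 := by rw [hw₁]; exact hn1
    have hn1q : B Q w₁ ≠ 0 := by rw [hw₁]; exact hn1'
    have hn2p : B P w₂ ≠ 0 := by rw [hw₂]; exact hn2
    have hn2q : B Q w₂ ≠ 0 := by rw [hw₂]; exact hn2'
    rw [← hw₁] at hn1k
    rw [← hw₂] at hn2k
    have e11 : B w₁ w₁ = 0 := hm1 _ _ hn1k hn1k
    have e22 : B w₂ w₂ = 0 := hm2 _ _ hn2k hn2k
    have e12 : B w₁ w₂ = 0 := hsep _ (hn1k _) (by rw [hB]; exact hn2k _)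
    have e21 : B w₂ w₁ = 0 := by rw [hB]; exact e12
    -- the linear functions
    obtain ⟨g₁, hg₁⟩ : ∃ g : V →ₗ[K] K, ∀ x, g x = l₂ (B w₁ x) := ⟨l₂ ∘ₗ B w₁, fun _ => rfl⟩
    obtain ⟨g₂, hg₂⟩ : ∃ g : V →ₗ[K] K, ∀ x, g x = l₁ (B w₂ x) := ⟨l₁ ∘ₗ B w₂, fun _ => rfl⟩
    have hg1 : ∀ x, B x w₁ ≠ 0 → g₁ x ≠ 0 := by
      intro x hx h0
      rw [hg₁] at h0
      apply hx
      rw [hB]
      exact hsep _ (hn1k _) h0
    have hg2 : ∀ x, B x w₂ ≠ 0 → g₂ x ≠ 0 := by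
      intro x hx h0
      rw [hg₂] at h0
      apply hx
      rw [hB]
      exact hsep _ h0 (hn2k _)
    obtain ⟨x, hx⟩ : ∃ x : K → V, x = fun t => P + t • (Q - P) := ⟨_, rfl⟩
    have hxv : PV x := by
      rw [hx]
      exact (PV.const _).add (PV.smul PF.id (PV.const _))
    have hx0 : x 0 = P := by rw [hx]; simp
    have hx1 : x 1 = Q := by rw [hx]; simp
    obtain ⟨φ, hφ⟩ : ∃ φ : K → V, ∀ t, φ t = (2 * g₁ (x t) * g₂ (x t)) • x t -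
      (g₂ (x t) * l₂ (B (x t) (x t))) • w₁ - (g₁ (x t) * l₁ (B (x t) (x t))) • w₂ :=
      ⟨_, fun _ => rfl⟩
    have hφv : PV φ := by
      have h1 : φ = fun t => (2 * g₁ (x t) * g₂ (x t)) • x t -
        (g₂ (x t) * l₂ (B (x t) (x t))) • w₁ - (g₁ (x t) * l₁ (B (x t) (x t))) • w₂ := by
        funext t
        exact hφ t
      rw [h1]
      refine PV.sub (PV.sub (PV.smul (((PF.const 2).mul (hxv g₁)).mul (hxv g₂)) hxv)
        (PV.smul ((hxv g₂).mul ?_) (PV.const _))) (PV.smul ((hxv g₁).mul ?_) (PV.const _))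
      · exact (PV.bil B hxv hxv) l₂
      · exact (PV.bil B hxv hxv) l₁
    have hφ0 : ∀ t, B (φ t) (φ t) = 0 := by
      intro t
      rw [hφ]
      obtain ⟨y, hy⟩ : ∃ y, y = x t := ⟨_, rfl⟩
      rw [← hy]
      have k1 := hn1k y
      have k2 := hn2k y
      apply hsep
      · simp only [map_sub, map_smul, LinearMap.sub_apply, LinearMap.smul_apply, e11, e22, e12,
          e21, hB y w₁, hB y w₂, k1, hg₁, hg₂, smul_eq_mul, map_zero]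
        ring
      · simp only [map_sub, map_smul, LinearMap.sub_apply, LinearMap.smul_apply, e11, e22, e12,
          e21, hB y w₁, hB y w₂, k2, hg₁, hg₂, smul_eq_mul, map_zero]
        ring
    have hφP : φ 0 = (2 * g₁ P * g₂ P) • P := by
      rw [hφ, hx0, hP]
      simp
    have hφQ : φ 1 = (2 * g₁ Q * g₂ Q) • Q := by
      rw [hφ, hx1, hQ]
      simp
    have hcP : 2 * g₁ P * g₂ P ≠ 0 :=
      mul_ne_zero (mul_ne_zero two_ne_zero (hg1 P hn1p)) (hg2 P hn2p)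
    have hcQ : 2 * g₁ Q * g₂ Q ≠ 0 :=
      mul_ne_zero (mul_ne_zero two_ne_zero (hg1 Q hn1q)) (hg2 Q hn2q)
    obtain ⟨c, hc⟩ := curve_flat (x₀ := x₀) (x₁ := x₁) hO hφv (fun t ht => h _ (hφ0 t) ht)
      ⟨0, by rw [hφP, map_smul, smul_eq_mul]; exact mul_ne_zero hcP hP0⟩
    refine ⟨c, ?_, ?_⟩
    · have h1 := hc 0
      rw [hφP, map_smul, map_smul, smul_eq_mul, smul_eq_mul] at h1
      exact mul_left_cancel₀ hcP (by linear_combination h1)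
    · have h1 := hc 1
      rw [hφQ, map_smul, map_smul, smul_eq_mul, smul_eq_mul] at h1
      exact mul_left_cancel₀ hcQ (by linear_combination h1)
  by_cases hex : ∃ P, B P P = 0 ∧ x₀ P ≠ 0 ∧ P ∉ orth B N₁ ∧ P ∉ orth B N₂
  · obtain ⟨P, hP, hP0, hP1, hP2⟩ := hex
    refine (((ih _ hZ₁).union (ih _ hZ₂)).union
      (Thin.of_finite (Set.finite_singleton (x₁ P / x₀ P)))).mono ?_
    rintro t ⟨Q, hQ, h1, h2⟩
    by_cases h3 : Q ∈ orth B N₁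
    · exact Or.inl (Or.inl ⟨Q, h3, hQ, h1, h2⟩)
    by_cases h4 : Q ∈ orth B N₂
    · exact Or.inl (Or.inr ⟨Q, h4, hQ, h1, h2⟩)
    obtain ⟨c, hc, hc'⟩ := key P Q hP hP0 hP1 hP2 hQ h1 h3 h4
    right
    rw [Set.mem_singleton_iff, hc, mul_div_cancel_right₀ _ hP0]
    exact mul_right_cancel₀ h1 (h2.symm.trans hc')
  · refine ((ih _ hZ₁).union (ih _ hZ₂)).mono ?_
    rintro t ⟨Q, hQ, h1, h2⟩
    by_cases h3 : Q ∈ orth B N₁
    · exact Or.inl ⟨Q, h3, hQ, h1, h2⟩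
    by_cases h4 : Q ∈ orth B N₂
    · exact Or.inr ⟨Q, h4, hQ, h1, h2⟩
    exact absurd ⟨Q, hQ, h1, h3, h4⟩ hex

end Pool.Agent.V7H85.QS
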