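import Pool.Agent.V7H85.QS.Nonsing
import Pool.Agent.TH783.CE.Low3

/-!
# Pairs of quadratic equations in at most four variables
-/

set_option autoImplicit false
set_option linter.unusedSectionVars false

namespace Pool.Agent.V7H85.QS

open Module LinearMap Pool.Agent.TH783.CE

variable {K : Type} [Field K] [CharZero K]
variable {V E : Type} [AddCommGroup V] [Module K V] [AddCommGroup E] [Module K E]

variable {O : Set K} {B : V →ₗ[K] V →ₗ[K] E} {x₀ x₁ : V →ₗ[K] K}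

/-- one of the forms depends on `x₀` and `x₁` only -/
lemma case_plane (hB : ∀ u v, B u v = B v u) (hind : Ind x₀ x₁)
    (hz : ∀ l : E →ₗ[K] K, l ≠ 0 → ∃ u v, l (B u v) ≠ 0) {l : E →ₗ[K] K} (hl : l ≠ 0)
    (hU : ∀ u, x₀ u = 0 → x₁ u = 0 → ∀ v, l (B u v) = 0) : Thin (DB B x₀ x₁) := by
  obtain ⟨p₀, p₁, a00, a10, a01, a11⟩ := dual_vectors hind
  have hdec : ∀ v, ∃ u, x₀ u = 0 ∧ x₁ u = 0 ∧ v = x₀ v • p₀ + x₁ v • p₁ + u := fun v =>
    ⟨v - (x₀ v • p₀ + x₁ v • p₁), by simp [a00, a01], by simp [a10, a11], by abel⟩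
  have hval : ∀ v, l (B v v) = x₀ v * x₀ v * l (B p₀ p₀) + 2 * (x₀ v * x₁ v) * l (B p₀ p₁) +
      x₁ v * x₁ v * l (B p₁ p₁) := by
    intro v
    obtain ⟨u, h0, h1, h2⟩ := hdec v
    obtain ⟨s, hs⟩ : ∃ s, s = x₀ v := ⟨_, rfl⟩
    obtain ⟨t, ht⟩ : ∃ t, t = x₁ v := ⟨_, rfl⟩
    rw [← hs, ← ht] at h2 ⊢
    rw [h2]
    have e1 := hU u h0 h1
    have e2 : ∀ v, l (B v u) = 0 := fun v => by rw [hB]; exact e1 v
    simp only [map_add, map_smul, LinearMap.add_apply, LinearMap.smul_apply, smul_eq_mul, e1, e2,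
      hB p₁ p₀]
    ring
  obtain ⟨q, hq⟩ : ∃ q : Polynomial K, q = Polynomial.C (l (B p₀ p₀)) +
      Polynomial.C (2 * l (B p₀ p₁)) * Polynomial.X +
      Polynomial.C (l (B p₁ p₁)) * Polynomial.X ^ 2 := ⟨_, rfl⟩
  have hq0 : q ≠ 0 := by
    intro h0
    obtain ⟨u, v, huv⟩ := hz l hl
    have h1 : B.compr₂ l ≠ 0 := fun h0 => huv (LinearMap.congr_fun (LinearMap.congr_fun h0 u) v)
    obtain ⟨y, hy⟩ := exists_diag (B.compr₂ l) (fun u v => by
      show l (B u v) = l (B v u)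
      rw [hB]) h1
    apply hy
    show l (B y y) = 0
    have e0 := congrArg (fun p => Polynomial.coeff p 0) h0
    have e1 := congrArg (fun p => Polynomial.coeff p 1) h0
    have e2 := congrArg (fun p => Polynomial.coeff p 2) h0
    rw [hq] at e0 e1 e2
    simp [Polynomial.coeff_X, Polynomial.coeff_C, Polynomial.coeff_X_pow] at e0 e1 e2
    rw [hval, e0, e1, e2]
    ring
  refine Thin.of_finite ((Polynomial.finite_setOfPred_isRoot hq0).subset ?_)
  rintro t ⟨P, hP, h1, h2⟩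
  have h3 := hval P
  rw [hP, map_zero, h2] at h3
  show Polynomial.eval t q = 0
  rw [hq]
  simp only [Polynomial.eval_add, Polynomial.eval_mul, Polynomial.eval_C, Polynomial.eval_X,
    Polynomial.eval_pow]
  refine (mul_eq_zero.1 (?_ : (x₀ P * x₀ P) * _ = 0)).resolve_left (mul_ne_zero h1 h1)
  linear_combination -h3

/-- elimination -/
lemma case_elim [FiniteDimensional K E] (hE : finrank K E = 2) (hB : ∀ u v, B u v = B v u)
    (hO : Flat O) (h : ∀ P, B P P = 0 → x₀ P ≠ 0 → x₁ P / x₀ P ∈ O)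
    (ih : ∀ W : Submodule K V, W ≠ ⊤ → Thin (DW B x₀ x₁ W)) (hind : Ind x₀ x₁)
    {e f : V} (he0 : x₀ e = 0) (he1 : x₁ e = 0) (hf0 : x₀ f = 0) (hf1 : x₁ f = 0)
    (hspan : ∀ u, x₀ u = 0 → x₁ u = 0 → ∃ y z : K, u = y • f + z • e) {l : E →ₗ[K] K} (hl : l ≠ 0)
    (hle : l (B e e) = 0) (hlv : ∃ v, l (B e v) ≠ 0) : Thin (DB B x₀ x₁) := by
  obtain ⟨p₀, p₁, a00, a10, a01, a11⟩ := dual_vectors hind
  obtain ⟨l', w, w', b1, b2, b3, b4, b5⟩ := dual_pair hE hl
  have hz : ∀ x, l x = 0 → l' x = 0 → x = 0 := fun x h1 h2 => by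
    rw [b5 x, h1, h2, zero_smul, zero_smul, add_zero]
  obtain ⟨g, hg⟩ : ∃ g : V →ₗ[K] K, ∀ v, g v = l (B e v) := ⟨l ∘ₗ B e, fun _ => rfl⟩
  have hg0 : g ≠ 0 := by
    rintro rfl
    obtain ⟨v, hv⟩ := hlv
    exact hv (hg v).symm
  obtain ⟨pt, hpt⟩ : ∃ pt : K → K → V, ∀ a y, pt a y = p₀ + a • p₁ + y • f := ⟨_, fun _ _ => rfl⟩
  -- the polynomial functions
  have hlin : ∀ m : V →ₗ[K] K, PF2 fun a y => m (pt a y) := by
    intro m
    simp only [hpt, map_add, map_smul, smul_eq_mul]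
    exact ((PF2.const _).add (PF2.fst.mul (PF2.const _))).add (PF2.snd.mul (PF2.const _))
  have hbil : ∀ b : V →ₗ[K] V →ₗ[K] K, PF2 fun a y => b (pt a y) (pt a y) := by
    intro b
    simp only [hpt, map_add, map_smul, LinearMap.add_apply, LinearMap.smul_apply, smul_eq_mul]
    have c := @PF2.const K _ _
    have l1 : ∀ c₀ c₁ c₂ : K, PF2 fun a y => c₀ + a * c₁ + y * c₂ := fun c₀ c₁ c₂ =>
      ((PF2.const _).add (PF2.fst.mul (PF2.const _))).add (PF2.snd.mul (PF2.const _))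
    exact ((l1 _ _ _).add (PF2.fst.mul (l1 _ _ _))).add (PF2.snd.mul (l1 _ _ _))
  obtain ⟨G, hG⟩ : PF2 fun a y => l' (B e e) * (l (B (pt a y) (pt a y)) * l (B (pt a y) (pt a y))) -
      (2 * l' (B e (pt a y))) * ((2 * g (pt a y)) * l (B (pt a y) (pt a y))) +
      l' (B (pt a y) (pt a y)) * ((2 * g (pt a y)) * (2 * g (pt a y))) := by
    have hC := hbil (B.compr₂ l)
    have hC' := hbil (B.compr₂ l')
    have hg' := (PF2.const (2 : K)).mul (hlin g)
    have hb' := (PF2.const (2 : K)).mul (hlin (l' ∘ₗ B e))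
    exact (((PF2.const _).mul (hC.mul hC)).sub (hb'.mul (hg'.mul hC))).add (hC'.mul (hg'.mul hg'))
  have hH : ∀ a y, (Polynomial.C (2 * g p₀) + Polynomial.C (2 * g p₁) * Polynomial.X).eval a +
      (Polynomial.C (2 * g f)).eval a * y = 2 * g (pt a y) := by
    intro a y
    rw [hpt]
    simp only [Polynomial.eval_add, Polynomial.eval_mul, Polynomial.eval_C, Polynomial.eval_X,
      map_add, map_smul, smul_eq_mul]
    ring
  have hthin := thin_curve' hO G (Polynomial.C (2 * g p₀) + Polynomial.C (2 * g p₁) * Polynomial.X)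
    (Polynomial.C (2 * g f)) (by
      intro a y hR hH0
      rw [hH] at hH0
      rw [← hG] at hR
      dsimp only at hR
      obtain ⟨z, hz'⟩ : ∃ z, z = -l (B (pt a y) (pt a y)) / (2 * g (pt a y)) := ⟨_, rfl⟩
      have hzz : z * (2 * g (pt a y)) = -l (B (pt a y) (pt a y)) := by
        rw [hz', div_mul_cancel₀ _ hH0]
      have hx0 : x₀ (pt a y + z • e) = 1 := by
        rw [hpt]
        simp only [map_add, map_smul, a00, a01, hf0, he0, smul_eq_mul]
        ring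
      have hx1 : x₁ (pt a y + z • e) = a := by
        rw [hpt]
        simp only [map_add, map_smul, a10, a11, hf1, he1, smul_eq_mul]
        ring
      have h1 := h (pt a y + z • e) ?_ (by rw [hx0]; exact one_ne_zero)
      · rw [hx0, hx1, div_one] at h1
        exact h1
      · apply hz
        · simp only [map_add, map_smul, LinearMap.add_apply, LinearMap.smul_apply, smul_eq_mul,
            hle, hB (pt a y) e, ← hg]
          linear_combination hzz
        · simp only [map_add, map_smul, LinearMap.add_apply, LinearMap.smul_apply, smul_eq_mul,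
            hB (pt a y) e]
          obtain ⟨C, hC⟩ : ∃ C, C = l (B (pt a y) (pt a y)) := ⟨_, rfl⟩
          obtain ⟨H, hH'⟩ : ∃ H, H = 2 * g (pt a y) := ⟨_, rfl⟩
          rw [← hC, ← hH'] at hR hzz
          rw [← hH'] at hH0
          have hC2 : C = -(z * H) := by rw [hzz, neg_neg]
          rw [hC2] at hR
          have h2 : H * H * (l' (B (pt a y) (pt a y)) + z * l' (B e (pt a y)) +
              z * (l' (B e (pt a y)) + z * l' (B e e))) = 0 := by
            linear_combination hR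
          exact (mul_eq_zero.1 h2).resolve_left (mul_ne_zero hH0 hH0))
  refine ((ih (ker g) (ker_ne_top hg0)).union hthin).mono ?_
  rintro t ⟨P, hP, h1, h2⟩
  by_cases hgP : g P = 0
  · exact Or.inl ⟨P, hgP, hP, h1, h2⟩
  right
  obtain ⟨y, z, hyz⟩ := hspan ((x₀ P)⁻¹ • P - (p₀ + t • p₁))
    (by
      simp only [map_sub, map_add, map_smul, a00, a01, smul_eq_mul]
      field_simp
      ring)
    (by
      simp only [map_sub, map_add, map_smul, a10, a11, smul_eq_mul, h2]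
      field_simp
      ring)
  have hPe : (x₀ P)⁻¹ • P = pt t y + z • e := by
    rw [hpt, sub_eq_iff_eq_add.1 hyz]
    abel
  have hzero : B (pt t y + z • e) (pt t y + z • e) = 0 := by
    rw [← hPe, map_smul, LinearMap.map_smul₂, hP, smul_zero, smul_zero]
  have hgpt : g (pt t y) ≠ 0 := by
    have h3 : g ((x₀ P)⁻¹ • P) ≠ 0 := by
      rw [map_smul, smul_eq_mul]
      exact mul_ne_zero (inv_ne_zero h1) hgP
    rw [hPe, map_add, map_smul, hg e, hle, smul_zero, add_zero] at h3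
    exact h3
  refine ⟨y, ?_, ?_⟩
  · rw [← hG]
    dsimp only
    have e1 := congrArg l hzero
    have e2 := congrArg l' hzero
    simp only [map_add, map_smul, LinearMap.add_apply, LinearMap.smul_apply, smul_eq_mul, hle,
      hB (pt t y) e, ← hg, map_zero] at e1 e2
    have e3 : l (B (pt t y) (pt t y)) = -(z * (2 * g (pt t y))) := by linear_combination e1
    rw [e3]
    linear_combination ((2 * g (pt t y)) * (2 * g (pt t y))) * e2
  · rw [hH]
    exact mul_ne_zero two_ne_zero hgpt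

/-- nonsingular pencils in at most four variables -/
theorem case_small [FiniteDimensional K V] [FiniteDimensional K E] (hE : finrank K E = 2)
    (hB : ∀ u v, B u v = B v u) (hO : Flat O) (h : ∀ P, B P P = 0 → x₀ P ≠ 0 → x₁ P / x₀ P ∈ O)
    (ih : ∀ W : Submodule K V, W ≠ ⊤ → Thin (DW B x₀ x₁ W)) (hd : finrank K V ≤ 4)
    (hind : Ind x₀ x₁) (hz : ∀ l : E →ₗ[K] K, l ≠ 0 → ∃ u v, l (B u v) ≠ 0)
    {F : Set (E →ₗ[K] K)} (hF : F.Finite)
    (hF1 : ∀ μ ∈ F, μ ≠ 0 ∧ ∃ n : V, n ≠ 0 ∧ ∀ v, μ (B n v) = 0)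
    (hF2 : ∀ μ : E →ₗ[K] K, μ ≠ 0 → (∃ n : V, n ≠ 0 ∧ ∀ v, μ (B n v) = 0) →
        ∃ μ' ∈ F, ∃ c : K, μ' = c • μ) : Thin (DB B x₀ x₁) := by
  by_cases hA : ∃ l : E →ₗ[K] K, l ≠ 0 ∧ ∀ u, x₀ u = 0 → x₁ u = 0 → ∀ v, l (B u v) = 0
  · obtain ⟨l, hl, hU⟩ := hA
    exact case_plane hB hind hz hl hU
  push Not at hA
  obtain ⟨U, hU⟩ : ∃ U : Submodule K V, U = ker (x₀.prod x₁) := ⟨_, rfl⟩
  have hUm : ∀ u, u ∈ U ↔ x₀ u = 0 ∧ x₁ u = 0 := fun u => by
    rw [hU, LinearMap.mem_ker]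
    exact Prod.ext_iff
  have hUd : finrank K U ≤ 2 := by
    obtain ⟨p₀, p₁, a00, a10, a01, a11⟩ := dual_vectors hind
    have k1 := LinearMap.finrank_range_add_finrank_ker (x₀.prod x₁)
    have k2 : LinearMap.range (x₀.prod x₁) = ⊤ := by
      rw [LinearMap.range_eq_top]
      rintro ⟨a, b⟩
      refine ⟨a • p₀ + b • p₁, ?_⟩
      simp [a00, a10, a01, a11]
    rw [k2, finrank_top, Module.finrank_prod, Module.finrank_self, ← hU] at k1
    omega
  -- a good vector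
  obtain ⟨e, heU, he⟩ : ∃ e ∈ U, ∀ l : E →ₗ[K] K, l ≠ 0 → ∃ v, l (B e v) ≠ 0 := by
    by_contra hcon
    push Not at hcon
    have hcov : ⋃ μ ∈ (hF.toFinset), ((ker ((B.compr₂ μ) ∘ₗ U.subtype) : Submodule K U) : Set U) =
        Set.univ := by
      rw [Set.eq_univ_iff_forall]
      rintro ⟨u, hu⟩
      obtain ⟨l, hl, hlu⟩ := hcon u hu
      by_cases hu0 : u = 0
      · obtain ⟨u', hu'⟩ : ∃ u' ∈ U, u' ≠ 0 := by
          by_contra hc
          push Not at hc
          obtain ⟨u₁, h1, h2, v, hv⟩ := hA l hl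
          have h3 := hc u₁ ((hUm u₁).2 ⟨h1, h2⟩)
          rw [h3, map_zero, LinearMap.zero_apply, map_zero] at hv
          exact hv rfl
        obtain ⟨l', hl', hlu'⟩ := hcon u' hu'.1
        obtain ⟨μ, hμ, -⟩ := hF2 l' hl' ⟨u', hu'.2, hlu'⟩
        refine Set.mem_biUnion (hF.mem_toFinset.2 hμ) ?_
        show (⟨u, hu⟩ : U) ∈ ker ((B.compr₂ μ) ∘ₗ U.subtype)
        have h4 : (⟨u, hu⟩ : U) = 0 := Subtype.ext hu0
        rw [h4]
        exact Submodule.zero_mem _
      · obtain ⟨μ, hμ, c, hc⟩ := hF2 l hl ⟨u, hu0, hlu⟩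
        refine Set.mem_biUnion (hF.mem_toFinset.2 hμ) ?_
        show (⟨u, hu⟩ : U) ∈ ker ((B.compr₂ μ) ∘ₗ U.subtype)
        rw [LinearMap.mem_ker]
        ext v
        show μ (B u v) = 0
        rw [hc, LinearMap.smul_apply, hlu, smul_zero]
    obtain ⟨μ, hμ, hμt⟩ : ∃ μ ∈ hF.toFinset, ker ((B.compr₂ μ) ∘ₗ U.subtype) = ⊤ := by
      by_contra hc
      push Not at hc
      exact Subspace.biUnion_ne_univ_of_top_notMem (k := K) (E := U)
        (s := hF.toFinset.image fun μ => ker ((B.compr₂ μ) ∘ₗ U.subtype)) (by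
          rw [Finset.mem_image]
          rintro ⟨μ, hμ, hμt⟩
          exact hc μ hμ hμt) (by
          rw [← hcov]
          simp)
    have hμF := hF.mem_toFinset.1 hμ
    obtain ⟨u, h1, h2, v, hv⟩ := hA μ (hF1 μ hμF).1
    apply hv
    have h3 : (⟨u, (hUm u).2 ⟨h1, h2⟩⟩ : U) ∈ ker ((B.compr₂ μ) ∘ₗ U.subtype) := by
      rw [hμt]
      exact Submodule.mem_top
    exact LinearMap.congr_fun (LinearMap.mem_ker.1 h3) v
  obtain ⟨he0, he1⟩ := (hUm e).1 heU
  -- a functional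
  obtain ⟨l, hl, hle⟩ : ∃ l : E →ₗ[K] K, l ≠ 0 ∧ l (B e e) = 0 := by
    have hlt : Submodule.span K {B e e} < ⊤ := by
      refine lt_top_iff_ne_top.2 fun h => ?_
      have h1 := finrank_span_le_card (R := K) ({B e e} : Set E)
      rw [h, finrank_top] at h1
      simp at h1
      omega
    obtain ⟨lam, hlam0, hlam⟩ := Submodule.exists_dual_map_eq_bot_of_lt_top hlt inferInstance
    refine ⟨lam, hlam0, ?_⟩
    have h1 := Submodule.mem_map_of_mem (f := lam)
      (Submodule.mem_span_singleton_self (R := K) (B e e))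
    rw [hlam] at h1
    exact (Submodule.mem_bot K).1 h1
  have hene : e ≠ 0 := by
    rintro rfl
    obtain ⟨v, hv⟩ := he l hl
    rw [map_zero, LinearMap.zero_apply, map_zero] at hv
    exact hv rfl
  -- the second vector
  obtain ⟨f, hfU, hspan⟩ : ∃ f ∈ U, ∀ u ∈ U, ∃ y z : K, u = y • f + z • e := by
    obtain ⟨M, hM⟩ : ∃ M : Submodule K U, M = Submodule.span K {(⟨e, heU⟩ : U)} := ⟨_, rfl⟩
    have h1 := Submodule.finrank_quotient_add_finrank M
    have h2 : finrank K M = 1 := by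
      rw [hM]
      exact finrank_span_singleton fun h0 => hene (congrArg Subtype.val h0)
    have h3 : finrank K (U ⧸ M) ≤ 1 := by omega
    obtain ⟨q, hq⟩ := finrank_le_one_iff.1 h3
    obtain ⟨⟨f, hf⟩, rfl⟩ := M.mkQ_surjective q
    refine ⟨f, hf, fun u hu => ?_⟩
    obtain ⟨y, hy⟩ := hq (M.mkQ ⟨u, hu⟩)
    rw [← map_smul, ← sub_eq_zero, ← map_sub, Submodule.mkQ_apply, Submodule.Quotient.mk_eq_zero,
      hM, Submodule.mem_span_singleton] at hy
    obtain ⟨z, hz⟩ := hy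
    have h4 : z • e = y • f - u := congrArg Subtype.val hz
    refine ⟨y, -z, ?_⟩
    rw [neg_smul, h4]
    abel
  obtain ⟨hf0, hf1⟩ := (hUm f).1 hfU
  exact case_elim hE hB hO h ih hind he0 he1 hf0 hf1
    (fun u h0 h1 => hspan u ((hUm u).2 ⟨h0, h1⟩)) hl hle (he l hl)

end Pool.Agent.V7H85.QS
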