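import Pool.Agent.V7H85.QS.Curve
import Pool.Agent.TH783.CE.Flat

/-!
# Flat sets and systems of quadratic equations
-/

set_option autoImplicit false
set_option linter.unusedSectionVars false

namespace Pool.Agent.V7H85.QS

open Module LinearMap Pool.Agent.TH783.CE

variable {K : Type} [Field K] [CharZero K]

/-- polynomial curves on which the quotient of two linear functions has values in a flat set -/
lemma curve_flat {V : Type} [AddCommGroup V] [Module K V] {O : Set K} (hO : Flat O)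
    {x₀ x₁ : V →ₗ[K] K} {φ : K → V} (hφ : PV φ)
    (h : ∀ t, x₀ (φ t) ≠ 0 → x₁ (φ t) / x₀ (φ t) ∈ O) (h0 : ∃ t, x₀ (φ t) ≠ 0) :
    ∃ c : K, ∀ t, x₁ (φ t) = c * x₀ (φ t) := by
  obtain ⟨p₀, hp₀⟩ := hφ x₀
  obtain ⟨p₁, hp₁⟩ := hφ x₁
  dsimp only at hp₀ hp₁
  obtain ⟨t₀, ht₀⟩ := h0
  obtain ⟨c, hc⟩ := hO p₀ p₁ (by
    rintro rfl
    rw [hp₀, Polynomial.eval_zero] at ht₀
    exact ht₀ rfl) (by
    intro t ht
    have h1 := h t
    rw [hp₀, hp₁] at h1
    exact h1 ht)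
  refine ⟨c, fun t => ?_⟩
  rw [hp₀, hp₁, hc]
  simp

/-- the values at a smooth zero of a system of high rank -/
theorem smooth_zero {V E : Type} [AddCommGroup V] [Module K V] [FiniteDimensional K V]
    [AddCommGroup E] [Module K E] [FiniteDimensional K E] {O : Set K} (hO : Flat O)
    (B : V →ₗ[K] V →ₗ[K] E) (hB : ∀ u v, B u v = B v u)
    (hr : ∀ l : E →ₗ[K] K, l ≠ 0 →
      finrank K E * (finrank K E - 1) + 3 ≤ finrank K (range (B.compr₂ l)))
    {x₀ x₁ : V →ₗ[K] K} (h : ∀ P, B P P = 0 → x₀ P ≠ 0 → x₁ P / x₀ P ∈ O)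
    {P : V} (hP : B P P = 0) (hs : Function.Surjective (B P)) (hP0 : x₀ P ≠ 0) :
    ∃ c : K, x₁ = c • x₀ := by
  by_contra hcon
  push Not at hcon
  have hα : x₁ - (x₁ P / x₀ P) • x₀ ≠ 0 := fun h0 => hcon _ (sub_eq_zero.1 h0)
  obtain ⟨φ, hφ, hφ0, ⟨c, hc, hφc⟩, t, ht⟩ := curve _ V E B hB rfl hr P hP hs _ hα
  obtain ⟨d, hd⟩ := curve_flat (x₀ := x₀) (x₁ := x₁) hO hφ (fun t ht => h _ (hφ0 t) ht)
    ⟨0, by rw [hφc, map_smul, smul_eq_mul]; exact mul_ne_zero hc hP0⟩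
  have h1 := hd 0
  rw [hφc, map_smul, map_smul, smul_eq_mul, smul_eq_mul] at h1
  have h2 : x₁ P = d * x₀ P := mul_left_cancel₀ hc (by linear_combination h1)
  apply ht
  rw [LinearMap.sub_apply, LinearMap.smul_apply, hd t, h2, smul_eq_mul,
    mul_div_cancel_right₀ _ hP0, sub_self]

end Pool.Agent.V7H85.QS
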