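import Pool.Agent.V7H85.QS.Forms
import Pool.Agent.V7H85.QS.Pairs
import Pool.Agent.R565.QF.Conv

/-!
# Systems of at most two quadratic equations
-/

set_option autoImplicit false
set_option linter.unusedSectionVars false

namespace Pool.Agent.V7H85.QS

open Module LinearMap Pool.Agent.TH783.CE Matrix

variable {K : Type} [Field K]

section thin

variable {m n : ℕ} {O : Set K}

lemma sys_thin_two [CharZero K] (hO : Flat O)
    (A : Fin 2 → Matrix (Fin (n + 2)) (Fin (n + 2)) K) (hA : ∀ j, (A j).IsSymm)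
    (h : ∀ (a : K) (z : Fin n → K), (∀ j, form (A j) a z = 0) → a ∈ O) :
    Thin {a : K | ∃ z : Fin n → K, ∀ j, form (A j) a z = 0} := by
  refine (pair_thin hO _ (Fin (n + 2) → K) (Fin 2 → K) (bilm A) (co 0) (co 1) (by simp)
    (bilm_symm A hA) (values_of A h) rfl).mono ?_
  rintro a ⟨z, hz⟩
  refine ⟨pt a z, bilm_pt A hz, ?_, ?_⟩
  · rw [co_apply]
    exact one_ne_zero
  · rw [co_apply, co_apply]
    show a = a * 1
    rw [mul_one]

lemma sys_thin [CharZero K] (hO : Flat O) (hm : m ≤ 2)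
    (A : Fin m → Matrix (Fin (n + 2)) (Fin (n + 2)) K) (hA : ∀ j, (A j).IsSymm)
    (h : ∀ (a : K) (z : Fin n → K), (∀ j, form (A j) a z = 0) → a ∈ O) :
    Thin {a : K | ∃ z : Fin n → K, ∀ j, form (A j) a z = 0} := by
  obtain ⟨A', hA'⟩ : ∃ A' : Fin 2 → Matrix (Fin (n + 2)) (Fin (n + 2)) K,
      A' = fun j : Fin 2 => if hj : j.val < m then A ⟨j, hj⟩ else 0 := ⟨_, rfl⟩
  have key : ∀ (a : K) (z : Fin n → K), (∀ j, form (A' j) a z = 0) ↔ ∀ j, form (A j) a z = 0 := by
    intro a z
    constructor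
    · intro h1 j
      have h2 := h1 ⟨j, by omega⟩
      rw [hA'] at h2
      simpa using h2
    · intro h1 j
      rw [hA']
      by_cases hj : j.val < m
      · simp only [hj, dite_true]
        exact h1 _
      · simp only [hj, dite_false]
        simp [form]
  have h2 := sys_thin_two hO A' (fun j => by
    rw [hA']
    by_cases hj : j.val < m
    · simp only [hj, dite_true]
      exact hA _
    · simp only [hj, dite_false]
      exact Matrix.isSymm_zero) fun a z hz => h a z ((key a z).1 hz)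
  simp only [key] at h2
  exact h2

end thin

section conv

variable {n : ℕ}

/-- the symmetric matrix of a polynomial of degree at most two -/
lemma exists_matrix [CharZero K] (b : K) (f : MvPolynomial (Fin 2 ⊕ Fin n) K)
    (hf : ∀ e ∈ f.support, e (Sum.inl 0) + ∑ j, e (Sum.inr j) ≤ 2) :
    ∃ A : Matrix (Fin (n + 2)) (Fin (n + 2)) K, A.IsSymm ∧
      ∀ (a : K) (z : Fin n → K), form A a z = MvPolynomial.eval (Sum.elim ![a, b] z) f := by
  have hd : (slice b f).totalDegree ≤ 2 := by
    rw [slice, MvPolynomial.eval₂_eq']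
    refine MvPolynomial.totalDegree_finsetSum_le fun m hm => ?_
    refine (MvPolynomial.totalDegree_mul _ _).trans ?_
    rw [MvPolynomial.totalDegree_C, zero_add]
    refine (MvPolynomial.totalDegree_finsetProd _ _).trans ?_
    refine le_trans ?_ (hf m hm)
    rw [Fintype.sum_sum_type, Fin.sum_univ_two]
    have e1 : (MvPolynomial.totalDegree ((Sum.elim ![MvPolynomial.X 0, MvPolynomial.C b]
        (fun j : Fin n => MvPolynomial.X j.succ) (Sum.inl 0) :
        MvPolynomial (Fin (n + 1)) K) ^ m (Sum.inl 0))) ≤ m (Sum.inl 0) := by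
      refine (MvPolynomial.totalDegree_pow _ _).trans ?_
      simp
    have e2 : (MvPolynomial.totalDegree ((Sum.elim ![MvPolynomial.X 0, MvPolynomial.C b]
        (fun j : Fin n => MvPolynomial.X j.succ) (Sum.inl 1) :
        MvPolynomial (Fin (n + 1)) K) ^ m (Sum.inl 1))) ≤ 0 := by
      refine (MvPolynomial.totalDegree_pow _ _).trans ?_
      simp
    have e3 : ∀ j : Fin n, (MvPolynomial.totalDegree ((Sum.elim ![MvPolynomial.X 0,
        MvPolynomial.C b] (fun j : Fin n => MvPolynomial.X j.succ)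
        (Sum.inr j) : MvPolynomial (Fin (n + 1)) K) ^ m (Sum.inr j))) ≤ m (Sum.inr j) := by
      intro j
      refine (MvPolynomial.totalDegree_pow _ _).trans ?_
      simp
    have e4 := Finset.sum_le_sum fun j (_ : j ∈ (Finset.univ : Finset (Fin n))) => e3 j
    omega
  obtain ⟨c, l, β, hq⟩ := Pool.Agent.R565.QF.deg_two_ring (slice b f) hd
  have key : ∀ x : Fin (n + 1) → K, MvPolynomial.eval x (slice b f) =
      c + ∑ i, l i * x i + ∑ i, ∑ j, β i j * (x i * x j) := fun x => hq K (RingHom.id K) x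
  obtain ⟨M, hM⟩ : ∃ M : Matrix (Fin (n + 2)) (Fin (n + 2)) K,
      M = Matrix.of (vecCons (vecCons c l) fun i => vecCons 0 (β i)) := ⟨_, rfl⟩
  have hMv : ∀ x : Fin (n + 1) → K, (vecCons 1 x : Fin (n + 2) → K) ⬝ᵥ M *ᵥ vecCons 1 x =
      MvPolynomial.eval x (slice b f) := by
    intro x
    rw [key, hM]
    simp only [dotProduct, mulVec, Fin.sum_univ_succ (n := n + 1), Matrix.of_apply, cons_val_zero,
      cons_val_succ, mul_one, one_mul, zero_add, add_right_inj]
    refine Finset.sum_congr rfl fun i _ => ?_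
    rw [Finset.mul_sum]
    refine Finset.sum_congr rfl fun j _ => ?_
    ring
  refine ⟨(2 : K)⁻¹ • (M + Mᵀ), ?_, ?_⟩
  · rw [Matrix.IsSymm, transpose_smul, transpose_add, transpose_transpose, add_comm Mᵀ]
  · intro a z
    rw [form, smul_mulVec, dotProduct_smul, add_mulVec, dotProduct_add]
    have h1 : pt a z ⬝ᵥ Mᵀ *ᵥ pt a z = pt a z ⬝ᵥ M *ᵥ pt a z := by
      rw [mulVec_transpose, dotProduct_comm, ← dotProduct_mulVec]
    have h2 : pt a z ⬝ᵥ M *ᵥ pt a z = MvPolynomial.eval (Sum.elim ![a, b] z) f := by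
      rw [← eval_slice]
      exact hMv (Fin.cons a z)
    rw [h1, h2, ← two_mul, smul_eq_mul, inv_mul_cancel_left₀ two_ne_zero]

end conv

end Pool.Agent.V7H85.QS
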